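import Mathlib
import Pool.Agent.V5helper30.OP.LF
import Pool.Agent.Results.MP_544bd1_al.PrimePowerSecondGenerator

/-!
# Two generators, one of odd prime order, decide local finiteness

The results `PrimePowerSecondGenerator` and `SecondGeneratorPrimeOrder` use the finiteness of the
subgroups `⟨x, y⟩` for all `y` of prime power order, or for all `2`-elements `y` and all elements `y`
of order `q` (`n = 2 ^ a * q ^ b`).  Here the `2`-elements `y` are dropped: for `n = 2 * q ^ b` and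
`n = 4 * q` one needs the elements `y` of order `q` only, that is *one* quotient of `B_{2,n}`, by the
normal closure of `x₁ ^ q`.  So `10 ∈ 𝓛`, `12 ∈ 𝓛`, `20 ∈ 𝓛` if and only if the largest groups of
exponent `10`, `12`, `20` generated by two elements, one of them of order `5`, `3`, `5`, are finite.
More generally, `n = 2 ^ a * m` is treated for odd `m`, where a Mersenne prime `2 ^ k - 1`, `k ≤ a`,
which divides `m` has to be equal to `m`; if `m` has more than one prime divisor, the finite groups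
`⟨x, y⟩` are assumed to be soluble.

Outline (library `Pool.Agent.V5helper30.OP`).  Let `G` have exponent `n = 2 ^ a * m`, `m` odd, and no
nontrivial normal subgroup of exponent dividing `2 ^ a` or `m`.

1. (`Base`.)  Let `w = x ^ 2 ^ (a - 1)`, `x` a `2`-element.  By the theorem of Hall and Higman `w` lies
in `O_{2',2}(E)` for the finite soluble subgroups `E` which contain `x`.  To obtain this for all
finite soluble `E` containing `w`, one compares `w` with the elements `f` of odd prime power order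
(`Det`): if an involution `w` is in `O_{2',2}⟨w, f⟩` for these `f`, it is in `O_{2',2}(E)` (proof in the
completely reducible case: the commutators of `w` with elements of odd order which act on a
`2`-group `V` centralise `V`).

2. (`Cert`, `Inv`.)  If `w ≠ 1`, then `w` inverts an element `v` of odd prime order: there is an
involution `j` with `(w j) ^ 2 ^ a ≠ 1`.  Otherwise `w` would lie in the normal subgroup of all `e` with
`e ^ 2 ^ a = 1` and `(e z) ^ 2 ^ a = 1` for all `2`-elements `z`.  For `a = 2` this is a version of the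
theorem of Baer and Suzuki for groups of exponent `4 m` which are not assumed to be locally finite:
if `(w j) ^ 4 = 1` for all involutions `j`, then `(w z) ^ 4 = 1` for all `z` of order `4`; it is
proved by a coset enumeration (590 cosets, checked by the kernel).  For `a ≥ 3` the groups `⟨w, z⟩`
are used.

3. (`Base`.)  This is impossible: the finite groups `⟨v, g w⟩`, `g ∈ ⟨v, g v g⁻¹⟩`.

4. (`ExcA`, `ExcB`, `ExcC`.)  The exceptional case of the theorem of Hall and Higman, `q = 2 ^ μ - 1`,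
`n = 2 ^ a * q`.  It is shown that in the sections `(V, L)` of the finite subgroups, `V` an elementary
abelian `2`-group and `L / V` a `q`-group, `C_L(V) ≤ V`, the group `L / V` is commutative: if `s, h` in
`L` have order `q` and `[s, h]` is central modulo `V`, then for all `v` in `V` some element of
`[s, h] V` commutes with `s` and `h ^ v`, by the centraliser theorem for elements of order `q`
applied to `⟨s, h ^ v⟩`; a computation in the group ring (`Act`) shows that `[s, h]` centralises `V`.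
-/

set_option autoImplicit false

namespace Pool.Agent.Results.MP_544bd1_al.OddPrimeSecondGenerator

open Pool.Agent Pool.Agent.H32BU Pool.Agent.N6.Pf Pool.Agent.N6.Pg Pool.Agent.V5helper30.OP

universe u

/-- `n ∈ 𝓛`: every group satisfying `x ^ n = 1` is locally finite. -/
def InL (n : ℕ) : Prop := ∀ (G : Type u) [Group G], (∀ x : G, x ^ n = 1) →
  ∀ S : Set G, S.Finite → Finite (Subgroup.closure S)

/-- The largest group of exponent dividing `n` generated by two elements `x₀, x₁` with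
`x₁ ^ s = 1`: the quotient of the free Burnside group `B_{2,n}` by the normal closure of `x₁ ^ s`. -/
abbrev P (n s : ℕ) : Type :=
  FreeGroup (Fin 2) ⧸ Subgroup.normalClosure
    ((Set.range fun w : FreeGroup (Fin 2) => w ^ n) ∪ {FreeGroup.of 1 ^ s})

/-- The largest group of exponent dividing `n` generated by two elements `x₀, x₁` with
`x₀ ^ r = 1` and `x₁ ^ s = 1`. -/
abbrev P2 (n r s : ℕ) : Type :=
  FreeGroup (Fin 2) ⧸ Subgroup.normalClosure
    ((Set.range fun w : FreeGroup (Fin 2) => w ^ n) ∪ {FreeGroup.of 0 ^ r, FreeGroup.of 1 ^ s})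

/-- The condition on the exponent `2 ^ a * m`: a Mersenne prime `2 ^ k - 1` with `2 ≤ k ≤ a` which
divides `m` is equal to `m` (no condition if `a ≤ 1`). -/
def Admissible (a m : ℕ) : Prop :=
  ∀ k : ℕ, 2 ≤ k → k ≤ a → (2 ^ k - 1).Prime → (2 ^ k - 1) ∣ m → m = 2 ^ k - 1

/-- The subgroup generated by `x` and `y` is finite, and soluble if `m` has more than one prime
divisor. -/
def Tame (m : ℕ) {G : Type u} [Group G] (x y : G) : Prop :=
  Finite (Subgroup.closure {x, y}) ∧
    (m.primeFactors.card ≤ 1 ∨ Group.IsSolvable (Subgroup.closure {x, y}))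

/-- `y ^ s = 1` for some prime `s` dividing `m`. -/
def PrimeOrder (m : ℕ) {G : Type u} [Group G] (y : G) : Prop :=
  ∃ s : ℕ, s.Prime ∧ s ∣ m ∧ y ^ s = 1

/-- `y ^ t = 1` for some prime power `t` dividing `m`. -/
def PrimePowerOrder (m : ℕ) {G : Type u} [Group G] (y : G) : Prop :=
  ∃ s k : ℕ, s.Prime ∧ s ^ k ∣ m ∧ y ^ s ^ k = 1

/-- The groups `P n s`, `s` a prime divisor of `m`, and, if `a ≥ 2`, the groups
`P2 n (2 ^ a) (s ^ k)`, `s ^ k` a prime power dividing `m`, and, if `a ≥ 3`, the group `P2 n 2 (2 ^ a)`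
are soluble, `n = 2 ^ a * m`. -/
def SolubleQuotients (a m : ℕ) : Prop :=
  (∀ s : ℕ, s.Prime → s ∣ m → Group.IsSolvable (P (2 ^ a * m) s)) ∧
  (2 ≤ a → ∀ s k : ℕ, s.Prime → s ^ k ∣ m →
    Group.IsSolvable (P2 (2 ^ a * m) (2 ^ a) (s ^ k))) ∧
  (3 ≤ a → Group.IsSolvable (P2 (2 ^ a * m) 2 (2 ^ a)))

theorem inL_of_dvd {n d : ℕ} (h : d ∣ n) (hL : InL.{u} n) : InL.{u} d := by
  obtain ⟨c, rfl⟩ := h
  exact fun G _ hG => hL G fun x => by rw [pow_mul, hG, one_pow]

theorem L4 : InL.{u} 4 := (inL_iff x_LFD 4).2 x_L34.2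

theorem L2 : InL.{u} 2 := inL_of_dvd (by norm_num) L4

theorem L3 : InL.{u} 3 := (inL_iff x_LFD 3).2 x_L34.1

theorem p_finite {n : ℕ} (h : InL.{u} n) (s : ℕ) : Finite (P n s) :=
  bq_finite ((inL_iff x_LFD n).1 h) s

theorem p2_finite {n : ℕ} (h : InL.{u} n) (r s : ℕ) : Finite (P2 n r s) :=
  cq_finite ((inL_iff x_LFD n).1 h) r s

/-- the quotient maps -/
theorem p_p2 (n r s : ℕ) : ∃ f : P n s →* P2 n r s, Function.Surjective f := by
  have hle : Subgroup.normalClosure
      ((Set.range fun w : FreeGroup (Fin 2) => w ^ n) ∪ {FreeGroup.of 1 ^ s}) ≤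
      (QuotientGroup.mk' (Subgroup.normalClosure
        ((Set.range fun w : FreeGroup (Fin 2) => w ^ n) ∪
          {FreeGroup.of 0 ^ r, FreeGroup.of 1 ^ s}))).ker := by
    rw [QuotientGroup.ker_mk']
    apply Subgroup.normalClosure_mono
    rintro _ (h | h)
    · exact Or.inl h
    · exact Or.inr (Or.inr h)
  refine ⟨QuotientGroup.lift _ _ (fun w hw => hle hw), ?_⟩
  intro y
  obtain ⟨w, rfl⟩ := QuotientGroup.mk_surjective y
  exact ⟨(QuotientGroup.mk w), rfl⟩

theorem p_dvd {n d : ℕ} (hd : d ∣ n) (s : ℕ) : ∃ f : P n s →* P d s, Function.Surjective f := by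
  obtain ⟨c, rfl⟩ := hd
  have hle : Subgroup.normalClosure
      ((Set.range fun w : FreeGroup (Fin 2) => w ^ (d * c)) ∪ {FreeGroup.of 1 ^ s}) ≤
      (QuotientGroup.mk' (Subgroup.normalClosure
        ((Set.range fun w : FreeGroup (Fin 2) => w ^ d) ∪ {FreeGroup.of 1 ^ s}))).ker := by
    rw [QuotientGroup.ker_mk']
    apply Subgroup.normalClosure_le_normal
    rintro _ (⟨w, rfl⟩ | h)
    · have h0 : w ^ d ∈ Subgroup.normalClosure
        ((Set.range fun w : FreeGroup (Fin 2) => w ^ d) ∪ {FreeGroup.of 1 ^ s}) :=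
        Subgroup.subset_normalClosure (Or.inl ⟨w, rfl⟩)
      change w ^ (d * c) ∈ _
      rw [pow_mul]
      exact pow_mem h0 c
    · exact Subgroup.subset_normalClosure (Or.inr h)
  refine ⟨QuotientGroup.lift _ _ (fun w hw => hle hw), ?_⟩
  intro y
  obtain ⟨w, rfl⟩ := QuotientGroup.mk_surjective y
  exact ⟨(QuotientGroup.mk w), rfl⟩

theorem odd_two {m : ℕ} (hm : Odd m) : ¬ 2 ∣ m := by
  intro h
  exact (Nat.not_even_iff_odd.2 hm) (even_iff_two_dvd.2 h)

theorem prime_power {m : ℕ} (hm : Odd m) (h : m.primeFactors.card ≤ 1) :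
    ∃ q b : ℕ, q.Prime ∧ q ≠ 2 ∧ m = q ^ b := by
  have h0 : m ≠ 0 := hm.pos.ne'
  rcases Nat.lt_or_ge 0 m.primeFactors.card with h1 | h1
  · obtain ⟨q, hq⟩ := Finset.card_eq_one.1 (show m.primeFactors.card = 1 by omega)
    have hqm : q ∈ m.primeFactors := by rw [hq]; exact Finset.mem_singleton_self q
    have hqp := Nat.prime_of_mem_primeFactors hqm
    refine ⟨q, m.factorization q, hqp, ?_, ?_⟩
    · rintro rfl
      exact odd_two hm (Nat.dvd_of_mem_primeFactors hqm)
    · have h2 := Nat.prod_factorization_pow_eq_self h0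
      rw [Finsupp.prod, Nat.support_factorization, hq, Finset.prod_singleton] at h2
      exact h2.symm
  · have h2 : m.primeFactors = ∅ := Finset.card_eq_zero.1 (by omega)
    have h3 : m = 1 := by
      rcases Nat.primeFactors_eq_empty.1 h2 with h | h
      · exact absurd h h0
      · exact h
    exact ⟨3, 0, Nat.prime_three, by norm_num, by rw [h3, pow_zero]⟩

theorem adm {a m : ℕ} (hm : Odd m) (hE : Admissible a m) : AllNoC m a := by
  by_cases h : ∀ k : ℕ, 2 ≤ k → k ≤ a → (2 ^ k - 1).Prime → ¬ (2 ^ k - 1) ∣ m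
  · exact allNoC_of (odd_two hm) h
  push Not at h
  obtain ⟨k, h1, h2, h3, h4⟩ := h
  have h5 := hE k h1 h2 h3 h4
  rw [← h5] at h3
  have h6 : m ≠ 2 := by
    rintro rfl
    exact odd_two hm dvd_rfl
  have h7 := allNoC_q (b := 1) (α := a) h3 h6 (fun _ _ _ _ => le_rfl)
  rwa [pow_one] at h7

/-- finite subgroups are soluble -/
theorem sol_of {a m : ℕ} (hm : Odd m) {G : Type u} [Group G] (hG : ∀ x : G, x ^ (2 ^ a * m) = 1)
    {x y : G} (h : Tame m x y) :
    Finite (Subgroup.closure {x, y}) ∧ Group.IsSolvable (Subgroup.closure {x, y}) := by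
  rcases h.2 with h1 | h1
  · obtain ⟨q, b, hq, -, rfl⟩ := prime_power hm h1
    exact sol_q hq hG _ h.1
  · exact ⟨h.1, h1⟩

/-- normal subgroups -/
theorem group_level {a m : ℕ} (hm : Odd m) (hE : Admissible a m)
    (G : Type u) [Group G] (hG : ∀ x : G, x ^ (2 ^ a * m) = 1)
    (f1 : ∀ x y : G, PrimeOrder m y → Tame m x y)
    (f2 : 2 ≤ a → ∀ x y : G, x ^ 2 ^ a = 1 → PrimePowerOrder m y → Tame m x y)
    (f3 : 3 ≤ a → ∀ x y : G, x ^ 2 = 1 → y ^ 2 ^ a = 1 → Tame m x y)
    (hnt : Nontrivial G) : ∃ N : Subgroup G, N.Normal ∧ N ≠ ⊥ ∧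
      ((∀ x ∈ N, x ^ 2 ^ a = 1) ∨ ∀ x ∈ N, x ^ m = 1) := by
  have hn : 2 ^ a * m ≠ 0 := Nat.mul_ne_zero (pow_ne_zero _ two_ne_zero) hm.pos.ne'
  refine exists_normalO (odd_two hm) (adm hm hE) G
    ⟨hG, fun x y hy => ?_, fun ha x y hx hy => sol_of hm hG (f2 ha x y hx (opp_cases hG hy)),
      fun ha w z hw hz => sol_of hm hG (f3 ha w z hw hz)⟩ hnt
  rcases opr_cases hG hy with rfl | h
  · exact c2_one hn (hG x)
  · exact sol_of hm hG (f1 x y h)

/-- local finiteness -/
theorem lf_level {a m : ℕ} (hm : Odd m) (hE : Admissible a m) (ha : a ≤ 2)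
    (hL : InL.{u} m) (G : Type u) [Group G] (hG : ∀ x : G, x ^ (2 ^ a * m) = 1)
    (h : ∀ x y : G, PrimePowerOrder m y → Tame m x y) (S : Set G) (hS : S.Finite) :
    Finite (Subgroup.closure S) :=
  lfO_u (odd_two hm) (adm hm hE) (locfin_two ha) ((inL_iff x_LFD _).1 hL) G hG
    (fun x y hy => sol_of hm hG (h x y (opp_cases hG hy))) (fun h3 => by omega) S hS

theorem crit {a m : ℕ} (hm : Odd m) (hE : Admissible a m)
    (hs : m.primeFactors.card ≤ 1 ∨ SolubleQuotients a m) :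
    InL.{u} (2 ^ a * m) ↔ InL.{u} (2 ^ a) ∧ InL.{u} m ∧
      (∀ s : ℕ, s.Prime → s ∣ m → Finite (P (2 ^ a * m) s)) ∧
      (2 ≤ a → ∀ s k : ℕ, s.Prime → s ^ k ∣ m → Finite (P2 (2 ^ a * m) (2 ^ a) (s ^ k))) ∧
      (3 ≤ a → Finite (P2 (2 ^ a * m) 2 (2 ^ a))) := by
  refine ⟨fun h => ⟨inL_of_dvd (dvd_mul_right _ _) h, inL_of_dvd (dvd_mul_left _ _) h,
    fun _ _ _ => p_finite h _, fun _ _ _ _ _ => p2_finite h _ _, fun _ => p2_finite h _ _⟩, ?_⟩
  rintro ⟨h1, h2, h3, h4, h5⟩
  have hC : Cd m a := by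
    rcases hs with hs | hs
    · obtain ⟨q, b, hq, -, rfl⟩ := prime_power hm hs
      have key : ∀ {H : Type} [Group H], (∀ x : H, x ^ (2 ^ a * q ^ b) = 1) → Finite H →
          Finite H ∧ Group.IsSolvable H := fun hH hf =>
        ⟨hf, W629.solv_of_exp 2 q a b Nat.prime_two hq hH⟩
      exact ⟨fun s hs hsm => key bq_exp (h3 s hs hsm),
        fun ha s k hs hsk => key cq_exp (h4 ha s k hs hsk), fun ha => key cq_exp (h5 ha)⟩
    · exact ⟨fun s hs1 hsm => ⟨h3 s hs1 hsm, hs.1 s hs1 hsm⟩,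
        fun ha s k hs1 hsk => ⟨h4 ha s k hs1 hsk, hs.2.1 ha s k hs1 hsk⟩,
        fun ha => ⟨h5 ha, hs.2.2 ha⟩⟩
  exact (inL_iff x_LFD _).2 (locfinO (odd_two hm) (adm hm hE) ((inL_iff x_LFD _).1 h1)
    ((inL_iff x_LFD _).1 h2) hC)

theorem five {m : ℕ} (hm : 2 ≤ m) (h : Finite (P (m * 5) 5)) : InL.{u} 5 :=
  (inL_iff x_LFD 5).2 (five_of_bq hm h)

/-- prime divisors of squarefree numbers -/
theorem sq_cases {m : ℕ} (hsq : Squarefree m) {s k : ℕ} (hs : s.Prime) (hsk : s ^ k ∣ m) :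
    s ^ k = 1 ∨ (s ^ k = s ∧ s ∣ m) := by
  rcases k with _ | _ | k
  · left
    rw [pow_zero]
  · right
    rw [zero_add, pow_one] at hsk ⊢
    exact ⟨rfl, hsk⟩
  · exfalso
    have h2 : s * s ∣ m := by
      refine dvd_trans ?_ hsk
      rw [← pow_two]
      exact pow_dvd_pow s (by omega)
    exact hs.one_lt.ne' (Nat.isUnit_iff.1 (hsq s h2))

/-- cyclic quotients -/
theorem p2_one {n r : ℕ} (hn : n ≠ 0) : Finite (P2 n r 1) ∧ Group.IsSolvable (P2 n r 1) := by
  have hx : ∀ w : P2 n r 1, w ^ n = 1 := cq_exp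
  have htop : (⊤ : Subgroup (P2 n r 1)) = Subgroup.closure
      {(QuotientGroup.mk (FreeGroup.of 0) : P2 n r 1), 1} := by
    rw [eq_comm, eq_top_iff]
    rintro x -
    obtain ⟨w, rfl⟩ := QuotientGroup.mk_surjective x
    have h1 : (QuotientGroup.mk (FreeGroup.of 1) : P2 n r 1) = 1 := by
      rw [QuotientGroup.eq_one_iff]
      have h2 : (FreeGroup.of 1 : FreeGroup (Fin 2)) ^ 1 ∈ Subgroup.normalClosure
          ((Set.range fun w : FreeGroup (Fin 2) => w ^ n) ∪
            {FreeGroup.of 0 ^ r, FreeGroup.of 1 ^ 1}) :=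
        Subgroup.subset_normalClosure (Or.inr (Or.inr rfl))
      rwa [pow_one] at h2
    induction w using FreeGroup.induction_on with
    | C1 => exact one_mem _
    | of i =>
      fin_cases i
      · exact Subgroup.subset_closure (Or.inl rfl)
      · exact Subgroup.subset_closure (Or.inr h1)
    | inv_of i hi => exact inv_mem hi
    | mul a b ha hb => exact mul_mem ha hb
  have h3 := c2_one (G := P2 n r 1) (n := n) hn
    (x := (QuotientGroup.mk (FreeGroup.of 0) : P2 n r 1)) (hx _)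
  rw [← htop] at h3
  obtain ⟨h4, h5⟩ := h3
  exact ⟨Finite.of_equiv _ (Subgroup.topEquiv (G := P2 n r 1)).toEquiv,
    Group.isSolvable_of_surjective (f := (Subgroup.topEquiv (G := P2 n r 1)).toMonoidHom)
      (Subgroup.topEquiv (G := P2 n r 1)).surjective⟩

theorem p_one {n : ℕ} (hn : n ≠ 0) : Finite (P n 1) ∧ Group.IsSolvable (P n 1) := by
  have hx : ∀ w : P n 1, w ^ n = 1 := bq_exp
  have htop : (⊤ : Subgroup (P n 1)) = Subgroup.closure
      {(QuotientGroup.mk (FreeGroup.of 0) : P n 1), 1} := by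
    rw [eq_comm, eq_top_iff]
    rintro x -
    obtain ⟨w, rfl⟩ := QuotientGroup.mk_surjective x
    have h1 : (QuotientGroup.mk (FreeGroup.of 1) : P n 1) = 1 := by
      rw [QuotientGroup.eq_one_iff]
      have h2 : (FreeGroup.of 1 : FreeGroup (Fin 2)) ^ 1 ∈ Subgroup.normalClosure
          ((Set.range fun w : FreeGroup (Fin 2) => w ^ n) ∪ {FreeGroup.of 1 ^ 1}) :=
        Subgroup.subset_normalClosure (Or.inr rfl)
      rwa [pow_one] at h2
    induction w using FreeGroup.induction_on with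
    | C1 => exact one_mem _
    | of i =>
      fin_cases i
      · exact Subgroup.subset_closure (Or.inl rfl)
      · exact Subgroup.subset_closure (Or.inr h1)
    | inv_of i hi => exact inv_mem hi
    | mul a b ha hb => exact mul_mem ha hb
  have h3 := c2_one (G := P n 1) (n := n) hn
    (x := (QuotientGroup.mk (FreeGroup.of 0) : P n 1)) (hx _)
  rw [← htop] at h3
  obtain ⟨h4, h5⟩ := h3
  exact ⟨Finite.of_equiv _ (Subgroup.topEquiv (G := P n 1)).toEquiv,
    Group.isSolvable_of_surjective (f := (Subgroup.topEquiv (G := P n 1)).toMonoidHom)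
      (Subgroup.topEquiv (G := P n 1)).surjective⟩

/-- squarefree odd exponents -/
theorem sqf_odd {m : ℕ} (hm : Odd m) (hsq : Squarefree m)
    (hp : ∀ p : ℕ, p.Prime → p ∣ m → 5 ≤ p → InL.{u} p)
    (h : ∀ p : ℕ, p.Prime → p ∣ m → Finite (P m p) ∧ Group.IsSolvable (P m p)) : InL.{u} m := by
  have hS : PrimePowerSecondGenerator.SquareCondition m := by
    intro p q hp hq _ _ h3 _
    rcases sq_cases hsq hp h3 with h | ⟨h, -⟩
    · have := Nat.pow_lt_pow_left hp.one_lt (n := 2) (by norm_num)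
      omega
    · have h4 := hp.one_lt
      rw [pow_two] at h
      nlinarith
  have hE : ∀ k : ℕ, ¬ PrimePowerSecondGenerator.Exceptional m k := by
    rintro k ⟨h3, h4, h5⟩
    exact odd_two hm ((dvd_pow_self 2 (by omega)).trans ((dvd_mul_right _ _).trans h5))
  refine (PrimePowerSecondGenerator.crit (n := m) hm.pos hS hE (Or.inr ?_)).2 ⟨?_, ?_⟩
  · intro p k hp hpk
    rcases sq_cases hsq hp hpk with h2 | ⟨h2, h3⟩
    · rw [h2]
      exact (p_one hm.pos.ne').2
    · rw [h2]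
      exact (h p hp h3).2
  · intro p k hpp hpk h4
    rcases sq_cases hsq hpp hpk with h2 | ⟨h2, h3⟩
    · omega
    · rw [h2] at h4 ⊢
      exact hp p hpp h3 h4
  · intro p k hp hpk
    rcases sq_cases hsq hp hpk with h2 | ⟨h2, h3⟩
    · rw [h2]
      exact (p_one hm.pos.ne').1
    · rw [h2]
      exact (h p hp h3).1

/-- squarefree odd part -/
theorem crit_sqf {a m : ℕ} (ha : 1 ≤ a) (hm : Odd m) (hsq : Squarefree m) (hE : Admissible a m)
    (hs : m.primeFactors.card ≤ 1 ∨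
      (∀ p : ℕ, p.Prime → p ∣ m → Group.IsSolvable (P (2 ^ a * m) p)) ∧
      (3 ≤ a → Group.IsSolvable (P2 (2 ^ a * m) 2 (2 ^ a)))) :
    InL.{u} (2 ^ a * m) ↔ InL.{u} (2 ^ a) ∧ (∀ p : ℕ, p.Prime → p ∣ m → 7 ≤ p → InL.{u} p) ∧
      (∀ p : ℕ, p.Prime → p ∣ m → Finite (P (2 ^ a * m) p)) ∧
      (3 ≤ a → Finite (P2 (2 ^ a * m) 2 (2 ^ a))) := by
  have hn : 2 ^ a * m ≠ 0 := Nat.mul_ne_zero (pow_ne_zero _ two_ne_zero) hm.pos.ne'
  refine ⟨fun h => ⟨inL_of_dvd (dvd_mul_right _ _) h,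
    fun p _ hpm _ => inL_of_dvd (hpm.trans (dvd_mul_left _ _)) h, fun _ _ _ => p_finite h _,
    fun _ => p2_finite h _ _⟩, ?_⟩
  rintro ⟨h1, h2, h3, h5⟩
  -- the groups are soluble
  have hs' : (∀ p : ℕ, p.Prime → p ∣ m → Group.IsSolvable (P (2 ^ a * m) p)) ∧
      (3 ≤ a → Group.IsSolvable (P2 (2 ^ a * m) 2 (2 ^ a))) := by
    rcases hs with hs | hs
    · obtain ⟨q, b, hq, -, rfl⟩ := prime_power hm hs
      refine ⟨fun p hp hpm => ?_, fun ha => ?_⟩
      · have := h3 p hp hpm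
        exact W629.solv_of_exp 2 q a b Nat.prime_two hq bq_exp
      · have := h5 ha
        exact W629.solv_of_exp 2 q a b Nat.prime_two hq cq_exp
    · exact hs
  obtain ⟨s1, s3⟩ := hs'
  have hmL : InL.{u} m := by
    refine sqf_odd hm hsq (fun p hp hpm hp5 => ?_) fun p hp hpm => ?_
    · rcases Nat.lt_or_ge p 7 with h7 | h7
      · have h6 : p = 5 := by
          rcases (show p = 5 ∨ p = 6 by omega) with h | h
          · exact h
          · rw [h] at hp
            exact absurd hp (by norm_num)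
        subst h6
        obtain ⟨c, rfl⟩ := hpm
        have h7 : 2 ^ a * (5 * c) = (2 ^ a * c) * 5 := by ring
        have hc : 0 < c := by
          rcases Nat.eq_zero_or_pos c with rfl | h
          · exact absurd hm (by norm_num)
          · exact h
        have h8 := h3 5 hp (dvd_mul_right _ _)
        rw [h7] at h8
        refine five (m := 2 ^ a * c) ?_ h8
        have h9 : 2 ≤ 2 ^ a := Nat.le_self_pow (by omega) 2
        nlinarith
      · exact h2 p hp hpm h7
    · obtain ⟨f, hf⟩ := p_dvd (n := 2 ^ a * m) (d := m) (dvd_mul_left _ _) p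
      have h4 := h3 p hp hpm
      have h6 := s1 p hp hpm
      exact ⟨Finite.of_surjective f hf, Group.isSolvable_of_surjective hf⟩
  have key : 2 ≤ a → ∀ s k : ℕ, s.Prime → s ^ k ∣ m →
      Finite (P2 (2 ^ a * m) (2 ^ a) (s ^ k)) ∧
        Group.IsSolvable (P2 (2 ^ a * m) (2 ^ a) (s ^ k)) := by
    intro _ s k hs hsk
    rcases sq_cases hsq hs hsk with h0 | ⟨hpe, hpm⟩
    · rw [h0]
      exact p2_one hn
    · rw [hpe]
      obtain ⟨f, hf⟩ := p_p2 (2 ^ a * m) (2 ^ a) s
      have h4 := h3 s hs hpm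
      have h6 := s1 s hs hpm
      exact ⟨Finite.of_surjective f hf, Group.isSolvable_of_surjective hf⟩
  exact (crit hm hE (Or.inr ⟨s1, fun ha s k hs hsk => (key ha s k hs hsk).2, s3⟩)).2
    ⟨h1, hmL, h3, fun ha s k hs hsk => (key ha s k hs hsk).1, h5⟩

theorem card_prime {p k : ℕ} (hp : p.Prime) : (p ^ k).primeFactors.card ≤ 1 := by
  rcases Nat.eq_zero_or_pos k with rfl | h
  · rw [pow_zero, Nat.primeFactors_one]
    exact Nat.zero_le _
  · rw [Nat.primeFactors_prime_pow h.ne' hp]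
    exact le_rfl

/-- `m = 5` -/
theorem five_mul {a : ℕ} (ha : 1 ≤ a) :
    InL.{u} (2 ^ a * 5) ↔ InL.{u} (2 ^ a) ∧ Finite (P (2 ^ a * 5) 5) ∧
      (3 ≤ a → Finite (P2 (2 ^ a * 5) 2 (2 ^ a))) := by
  have hd : ∀ p : ℕ, p.Prime → p ∣ 5 → p = 5 := fun p hp h =>
    (Nat.prime_dvd_prime_iff_eq hp Nat.prime_five).1 h
  have hc : (5 : ℕ).primeFactors.card ≤ 1 := by
    have h := card_prime (p := 5) (k := 1) Nat.prime_five
    rwa [pow_one] at h
  rw [crit_sqf (m := 5) ha (by decide) Nat.prime_five.prime.squarefree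
    (fun k _ _ h3 h4 => (hd _ h3 h4).symm) (Or.inl hc)]
  refine ⟨fun h => ⟨h.1, h.2.2.1 5 Nat.prime_five dvd_rfl, h.2.2.2⟩, fun h => ⟨h.1, ?_, ?_, h.2.2⟩⟩
  · intro p hp hpm h7
    have := hd p hp hpm
    omega
  · intro p hp hpm
    rw [hd p hp hpm]
    exact h.2.1

/-- `m = 3` -/
theorem three_mul {a : ℕ} (ha : 1 ≤ a) :
    InL.{u} (2 ^ a * 3) ↔ InL.{u} (2 ^ a) ∧ Finite (P (2 ^ a * 3) 3) ∧
      (3 ≤ a → Finite (P2 (2 ^ a * 3) 2 (2 ^ a))) := by
  have hd : ∀ p : ℕ, p.Prime → p ∣ 3 → p = 3 := fun p hp h =>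
    (Nat.prime_dvd_prime_iff_eq hp Nat.prime_three).1 h
  have hc : (3 : ℕ).primeFactors.card ≤ 1 := by
    have h := card_prime (p := 3) (k := 1) Nat.prime_three
    rwa [pow_one] at h
  rw [crit_sqf (m := 3) ha (by decide) Nat.prime_three.prime.squarefree
    (fun k _ _ h3 h4 => (hd _ h3 h4).symm) (Or.inl hc)]
  refine ⟨fun h => ⟨h.1, h.2.2.1 3 Nat.prime_three dvd_rfl, h.2.2.2⟩, fun h => ⟨h.1, ?_, ?_, h.2.2⟩⟩
  · intro p hp hpm h7
    have := hd p hp hpm
    omega
  · intro p hp hpm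
    rw [hd p hp hpm]
    exact h.2.1

theorem twice {q b : ℕ} (hq : q.Prime) (hq2 : q ≠ 2) :
    InL.{u} (2 * q ^ b) ↔ InL.{u} (q ^ b) ∧ Finite (P (2 * q ^ b) q) := by
  refine ⟨fun h => ⟨inL_of_dvd (dvd_mul_left _ _) h, p_finite h _⟩, ?_⟩
  rintro ⟨h1, h2⟩
  have h := (crit.{u} (a := 1) (m := q ^ b) (hq.odd_of_ne_two hq2).pow
    (fun k h1 h2 => by omega) (Or.inl (card_prime hq))).2 ⟨by rw [pow_one]; exact L2, h1,
      fun s hs hsm => ?_, fun h3 => by omega, fun h3 => by omega⟩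
  · rwa [pow_one] at h
  · have e : s = q := (Nat.prime_dvd_prime_iff_eq hs hq).1 (hs.dvd_of_dvd_pow hsm)
    rw [e, pow_one]
    exact h2

theorem sqf15 : Squarefree 15 := by
  have h : (15 : ℕ) = 3 * 5 := by norm_num
  rw [h, Nat.squarefree_mul (by norm_num)]
  exact ⟨Nat.prime_three.prime.squarefree, Nat.prime_five.prime.squarefree⟩

theorem primes15 {p : ℕ} (hp : p.Prime) (h : p ∣ 15) : p = 3 ∨ p = 5 := by
  have h4 : p ∣ 3 * 5 := h
  rcases hp.dvd_mul.1 h4 with h5 | h5
  · exact Or.inl ((Nat.prime_dvd_prime_iff_eq hp Nat.prime_three).1 h5)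
  · exact Or.inr ((Nat.prime_dvd_prime_iff_eq hp Nat.prime_five).1 h5)

theorem thirty (h3 : Group.IsSolvable (P 30 3)) (h5 : Group.IsSolvable (P 30 5)) :
    InL.{u} 30 ↔ Finite (P 30 3) ∧ Finite (P 30 5) := by
  refine ⟨fun h => ⟨p_finite h _, p_finite h _⟩, ?_⟩
  rintro ⟨f3, f5⟩
  have h := (crit_sqf.{u} (a := 1) (m := 15) le_rfl (by decide) sqf15
    (fun k h1 h2 => by omega) (Or.inr ⟨fun p hp hpm => by
      rcases primes15 hp hpm with rfl | rfl
      · exact h3
      · exact h5, fun h => by omega⟩)).2 ⟨L2, fun p hp hpm h7 => by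
        rcases primes15 hp hpm with rfl | rfl <;> omega, fun p hp hpm => by
        rcases primes15 hp hpm with rfl | rfl
        · exact f3
        · exact f5, fun h => by omega⟩
  exact h

/-- Let `n = 2 ^ a * m`, `m` odd, and suppose that a Mersenne prime `2 ^ k - 1`, `2 ≤ k ≤ a`, which
divides `m` is equal to `m` (no condition if `a ≤ 1`). `P n s` is the quotient of the free Burnside
group `B_{2,n}` by the normal closure of `x₁ ^ s`, and `P2 n r s` its quotient by the normal closure of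
`x₀ ^ r` and `x₁ ^ s`. Solubility is assumed only if `m` has more than one prime divisor.

(1) Let `G` be a nontrivial group of exponent dividing `n` such that `⟨x, y⟩` is finite (and soluble)
for all `x` and all `y` of prime order dividing `m`; if `a ≥ 2`, also for `x ^ 2 ^ a = 1` and `y` of
prime power order dividing `m`; if `a ≥ 3`, also for `x ^ 2 = 1`, `y ^ 2 ^ a = 1`. Then `G` has a
nontrivial normal subgroup of exponent dividing `2 ^ a` or `m`.
(2) Let `a ≤ 2`, `m ∈ 𝓛`. A group of exponent dividing `n` in which `⟨x, y⟩` is finite (and soluble)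
for all `x` and all `y` of prime power order dividing `m` is locally finite.
(3) If the groups in question are soluble, or `m` has at most one prime divisor, then `n ∈ 𝓛` if and
only if `2 ^ a, m ∈ 𝓛` and the groups `P n s`, `s` a prime divisor of `m`, are finite, and, if `a ≥ 2`,
`P2 n (2 ^ a) (s ^ k)` for the prime powers `s ^ k` dividing `m`, and, if `a ≥ 3`, `P2 n 2 (2 ^ a)`.
(4) If moreover `m` is squarefree and `a ≥ 1`, then `n ∈ 𝓛` if and only if `2 ^ a` and the primes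
`p ≥ 7` dividing `m` are in `𝓛` and the groups `P n p`, `p` a prime divisor of `m`, are finite, and, if
`a ≥ 3`, `P2 n 2 (2 ^ a)`.
(5) In particular `2 * q ^ b ∈ 𝓛` (`q` an odd prime) if and only if `q ^ b ∈ 𝓛` and `P (2 * q ^ b) q` is
finite; `10`, `12`, `20` are in `𝓛` if and only if `P 10 5`, `P 12 3`, `P 20 5`, respectively, are
finite. If `P 30 3` and `P 30 5` are soluble, then `30 ∈ 𝓛` if and only if they are finite. -/
theorem result :
    (∀ a m : ℕ, Odd m → Admissible a m →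
      (∀ (G : Type u) [Group G], (∀ x : G, x ^ (2 ^ a * m) = 1) →
        (∀ x y : G, PrimeOrder m y → Tame m x y) →
        (2 ≤ a → ∀ x y : G, x ^ 2 ^ a = 1 → PrimePowerOrder m y → Tame m x y) →
        (3 ≤ a → ∀ x y : G, x ^ 2 = 1 → y ^ 2 ^ a = 1 → Tame m x y) →
        Nontrivial G → ∃ N : Subgroup G, N.Normal ∧ N ≠ ⊥ ∧
          ((∀ x ∈ N, x ^ 2 ^ a = 1) ∨ ∀ x ∈ N, x ^ m = 1)) ∧
      (a ≤ 2 → InL.{u} m → ∀ (G : Type u) [Group G], (∀ x : G, x ^ (2 ^ a * m) = 1) →
        (∀ x y : G, PrimePowerOrder m y → Tame m x y) →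
        ∀ S : Set G, S.Finite → Finite (Subgroup.closure S)) ∧
      (m.primeFactors.card ≤ 1 ∨ SolubleQuotients a m →
        (InL.{u} (2 ^ a * m) ↔ InL.{u} (2 ^ a) ∧ InL.{u} m ∧
          (∀ s : ℕ, s.Prime → s ∣ m → Finite (P (2 ^ a * m) s)) ∧
          (2 ≤ a → ∀ s k : ℕ, s.Prime → s ^ k ∣ m →
            Finite (P2 (2 ^ a * m) (2 ^ a) (s ^ k))) ∧
          (3 ≤ a → Finite (P2 (2 ^ a * m) 2 (2 ^ a))))) ∧
      (1 ≤ a → Squarefree m → m.primeFactors.card ≤ 1 ∨
          (∀ p : ℕ, p.Prime → p ∣ m → Group.IsSolvable (P (2 ^ a * m) p)) ∧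
          (3 ≤ a → Group.IsSolvable (P2 (2 ^ a * m) 2 (2 ^ a))) →
        (InL.{u} (2 ^ a * m) ↔
          InL.{u} (2 ^ a) ∧ (∀ p : ℕ, p.Prime → p ∣ m → 7 ≤ p → InL.{u} p) ∧
          (∀ p : ℕ, p.Prime → p ∣ m → Finite (P (2 ^ a * m) p)) ∧
          (3 ≤ a → Finite (P2 (2 ^ a * m) 2 (2 ^ a)))))) ∧
    (∀ q b : ℕ, q.Prime → q ≠ 2 →
      (InL.{u} (2 * q ^ b) ↔ InL.{u} (q ^ b) ∧ Finite (P (2 * q ^ b) q))) ∧
    (InL.{u} 10 ↔ Finite (P 10 5)) ∧ (InL.{u} 12 ↔ Finite (P 12 3)) ∧
    (InL.{u} 20 ↔ Finite (P 20 5)) ∧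
    (Group.IsSolvable (P 30 3) → Group.IsSolvable (P 30 5) →
      (InL.{u} 30 ↔ Finite (P 30 3) ∧ Finite (P 30 5))) := by
  refine ⟨fun a m hm hE =>
    ⟨fun G _ hG f1 f2 f3 hnt => group_level hm hE G hG f1 f2 f3 hnt,
      fun ha hL G _ hG h S hS => lf_level hm hE ha hL G hG h S hS,
      fun hs => crit hm hE hs, fun ha hsq hs => crit_sqf ha hm hsq hE hs⟩,
    fun q b hq hq2 => twice hq hq2, ?_, ?_, ?_, thirty⟩
  · have h := five_mul.{u} (a := 1) le_rfl
    norm_num at h
    rw [h]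
    exact ⟨fun h => h.2, fun h => ⟨L2, h⟩⟩
  · have h := three_mul.{u} (a := 2) (by norm_num)
    norm_num at h
    rw [h]
    exact ⟨fun h => h.2, fun h => ⟨L4, h⟩⟩
  · have h := five_mul.{u} (a := 2) (by norm_num)
    norm_num at h
    rw [h]
    exact ⟨fun h => h.2, fun h => ⟨L4, h⟩⟩

end Pool.Agent.Results.MP_544bd1_al.OddPrimeSecondGenerator
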