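import Mathlib
import Pool.Agent.V5helper30.OT.Lift

/-!
# Primes dividing the exponent once: pairs of elements of order `p` are not needed

Let `n = p * m` be odd, `p` a prime not dividing `m`, such that `p` divides `s - 1` for all prime
divisors `s` of `m`, for example `n = 21, 39, 57, 93, 147`, or `n = 3 * 7 * 13`.  The earlier results on
local finiteness of groups of exponent `n` (the last one is `PrimeOrderAllExponents`, which needs `P n s`
for the prime divisors `s` of `m` and the quotient of `B_{2,n}` modulo `x₀ ^ p`, `x₁ ^ p`) assume that two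
elements of order `p` generate a finite group.  Here this is not assumed, and it is proved that the
elements of order `p` generate a normal subgroup of exponent `p` modulo the largest normal subgroup of
exponent `m`, if the subgroups `⟨x, y⟩`, `y` of prime order `s ≠ p`, are finite and soluble; for `p > 3`
one also needs those pairs `w`, `t` of elements of order `p` for which `(w t) ^ p` commutes with `w` and
`t`, that is, the quotient `T n p` of `B_{2,n}` modulo `x₀ ^ p`, `x₁ ^ p`, `(x₀ x₁) ^ p`.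

Outline (library `Pool.Agent.V5helper30.OT`; it uses the library `OQ` of `PrimeOrderAllExponents`).  Let
`G` have no normal subgroup of prime power exponent.

1. By `OQ`, `G` has no normal subgroup of exponent `m`, and an element of order `p` lies in `O_p(E)` for
every finite soluble group `E` containing it (here `p ∣ s - 1` is used).

2. (`Core.replace`.)  Let `w`, `t` have order `p`, and let `u` be an `r`-element, `r ≠ p`, commuting with
`w t`.  Then `w⁻¹ w ^ u = t (t⁻¹) ^ u` lies in the finite `p`-group `D = O_p⟨w, u⟩ ∩ O_p⟨t, u⟩`, which is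
normalised by `u`, so that the coset `w D` contains an element `f = w d` commuting with `u`.  Now
`w t = f f'`, `f' = d⁻¹ t`, and `f`, `f'` have order `p` and commute with `u`.

3. (`Core.core`.)  Going down the divisors `d` of `m`, starting with `(w t) ^ (p m) = 1`, one replaces `w`,
`t` by elements of order `p` with the same product which commute with more and more of the powers of
`(w t) ^ p`.  The elements `u` which occur have the property that `u ^ r` commutes with `w` and `t`, so
that `⟨w, u⟩` is a central extension of a quotient of `P n r`.  At the end `(w t) ^ p` is central in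
`⟨w, t⟩`.

4. (`Euc`.)  A group of finite exponent generated by two elements `x`, `y` of order `3` with
`(x y) ^ 3` central is finite and soluble (it is an extension of a group of class two by the cyclic group
`⟨x⟩`; the quotient is a quotient of the Euclidean triangle group).  For `p > 3` the triangle group is
hyperbolic, and the finiteness is a hypothesis.  Hence `(w t) ^ p = 1` for all `w`, `t` of order `p`, and
the elements of order `p` form a normal subgroup, so there are none, and `G` has exponent `m`.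
-/

set_option autoImplicit false

namespace Pool.Agent.Results.MP_544bd1_al.PrimeDividingOnce

open Pool.Agent Pool.Agent.H32BU Pool.Agent.TH69.Og Pool.Agent.N6.Pf
open Pool.Agent.N6.Pg Pool.Agent.V5helper30 Pool.Agent.V5helper30.OT
open Pool.Agent.V5helper30.OE (sol_two)

universe u

/-- `n ∈ 𝓛`: every group satisfying `x ^ n = 1` is locally finite. -/
def InL (n : ℕ) : Prop := ∀ (G : Type u) [Group G], (∀ x : G, x ^ n = 1) →
  ∀ S : Set G, S.Finite → Finite (Subgroup.closure S)

/-- Every prime power greater than `4` dividing `n` is in `𝓛`. -/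
def PrimePowersInL (n : ℕ) : Prop :=
  ∀ p k : ℕ, p.Prime → p ^ k ∣ n → 4 < p ^ k → InL.{u} (p ^ k)

/-- The largest group of exponent dividing `n` generated by two elements `x₀, x₁` with
`x₁ ^ s = 1`: the quotient of the free Burnside group `B_{2,n}` by the normal closure of `x₁ ^ s`. -/
abbrev P (n s : ℕ) : Type :=
  FreeGroup (Fin 2) ⧸ Subgroup.normalClosure
    ((Set.range fun w : FreeGroup (Fin 2) => w ^ n) ∪ {FreeGroup.of 1 ^ s})

/-- The largest group of exponent dividing `n` generated by two elements `x₀, x₁` with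
`x₀ ^ p = x₁ ^ p = (x₀ * x₁) ^ p = 1`. -/
abbrev T (n p : ℕ) : Type :=
  FreeGroup (Fin 2) ⧸ Subgroup.normalClosure
    ((Set.range fun w : FreeGroup (Fin 2) => w ^ n) ∪
      {FreeGroup.of 0 ^ p, FreeGroup.of 1 ^ p, (FreeGroup.of 0 * FreeGroup.of 1) ^ p})

/-- `y` has prime order different from `p`, or `y = 1`. -/
def PrimeOrderNe (p : ℕ) {G : Type u} [Group G] (y : G) : Prop :=
  ∃ s : ℕ, s.Prime ∧ s ≠ p ∧ y ^ s = 1

/-- The subgroup generated by `x` and `y` is finite, and soluble if `n` has more than two prime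
divisors. -/
def Tame (n : ℕ) {G : Type u} [Group G] (x y : G) : Prop :=
  Finite (Subgroup.closure {x, y}) ∧
    (n.primeFactors.card ≤ 2 ∨ Group.IsSolvable (Subgroup.closure {x, y}))

/-- The condition on `n`: if `p < q` are odd primes whose squares divide `n`, then `p` divides
`q - 1`. -/
def SquareCondition (n : ℕ) : Prop := ∀ p q : ℕ, p.Prime → q.Prime → 2 < p → p < q →
  p ^ 2 ∣ n → q ^ 2 ∣ n → p ∣ q - 1

theorem inL_of_dvd {n d : ℕ} (h : d ∣ n) (hL : InL.{u} n) : InL.{u} d := by
  obtain ⟨c, rfl⟩ := h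
  exact fun G _ hG => hL G fun x => by rw [pow_mul, hG, one_pow]

theorem ppL {n : ℕ} (h : InL.{u} n) : PrimePowersInL.{u} n := fun _ _ _ hd _ => inL_of_dvd hd h

theorem p_finite {n : ℕ} (h : InL.{u} n) (s : ℕ) : Finite (P n s) :=
  bq_finite ((inL_iff x_LFD n).1 h) s

theorem t_finite {n : ℕ} (h : InL.{u} n) (p : ℕ) : Finite (T n p) :=
  dq_finite ((inL_iff x_LFD n).1 h) p

theorem odd_two {m : ℕ} (hm : Odd m) : ¬ 2 ∣ m := by
  intro h
  exact (Nat.not_even_iff_odd.2 hm) (even_iff_two_dvd.2 h)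

/-- finite subgroups are soluble -/
theorem sol_of {n : ℕ} (hn : 0 < n) {G : Type u} [Group G] (hG : ∀ x : G, x ^ n = 1)
    {x y : G} (h : Tame n x y) :
    Finite (Subgroup.closure {x, y}) ∧ Group.IsSolvable (Subgroup.closure {x, y}) := by
  rcases h.2 with h1 | h1
  · exact ⟨h.1, sol_two hn h1 hG _ h.1⟩
  · exact ⟨h.1, h1⟩

theorem sol_fin {n : ℕ} (hn : 0 < n) {H : Type} [Group H] (hH : ∀ x : H, x ^ n = 1) (hf : Finite H)
    (h : n.primeFactors.card ≤ 2 ∨ Group.IsSolvable H) : Finite H ∧ Group.IsSolvable H := by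
  refine ⟨hf, ?_⟩
  rcases h with h | h
  · have h1 := sol_two hn h hH (⊤ : Subgroup H) inferInstance
    exact Group.isSolvable_of_surjective (f := (Subgroup.topEquiv (G := H)).toMonoidHom)
      (Subgroup.topEquiv (G := H)).surjective
  · exact h

/-- elements of prime power order for primes whose square does not divide the exponent -/
theorem pow_of_sq {n r k : ℕ} (hr : r.Prime) (h2 : ¬ r ^ 2 ∣ n) {G : Type u} [Group G]
    (hG : ∀ x : G, x ^ n = 1) {u : G} (hu : u ^ r ^ k = 1) : u ^ r = 1 := by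
  have h3 := orderOf_dvd_of_pow_eq_one (hG u)
  obtain ⟨j, -, hj⟩ := (Nat.dvd_prime_pow hr).1 (orderOf_dvd_of_pow_eq_one hu)
  have h4 : j ≤ 1 := by
    by_contra h
    push Not at h
    apply h2
    rw [hj] at h3
    exact (pow_dvd_pow r (by omega)).trans h3
  apply orderOf_dvd_iff_pow_eq_one.1
  rw [hj]
  exact (pow_dvd_pow r h4).trans (by rw [pow_one])

theorem normal_once {p m : ℕ} (hp : p.Prime) (hpm : Nat.Coprime p m) (hodd : Odd (p * m))
    (hS : SquareCondition m) (hdiv : ∀ s : ℕ, s.Prime → s ∣ m → p ∣ s - 1)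
    (G : Type u) [Group G] (hG : ∀ x : G, x ^ (p * m) = 1)
    (f1 : ∀ x y : G, PrimeOrderNe p y → Tame (p * m) x y)
    (f1c : ∀ r k : ℕ, r.Prime → r ^ 2 ∣ m → ∀ x y : G, x ^ p = 1 → y ^ r ^ k = 1 →
      Commute (y ^ r) x → Tame (p * m) x y)
    (f2 : p ≠ 3 → ∀ x y : G, x ^ p = 1 → y ^ p = 1 → Commute ((x * y) ^ p) x →
      Tame (p * m) x y)
    (hnt : Nontrivial G) : ∃ r k : ℕ, r.Prime ∧ r ^ k ∣ p * m ∧
      ∃ N : Subgroup G, N.Normal ∧ N ≠ ⊥ ∧ ∀ x ∈ N, x ^ r ^ k = 1 := by
  refine exists_normalT hp hpm (odd_two hodd) hS hdiv G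
    ⟨hG, fun x y hy => sol_of hodd.pos hG (f1 x y hy), fun w u hw r k hr hrp hu hc => ?_,
      fun h3 w t hw ht hc => sol_of hodd.pos hG (f2 h3 w t hw ht hc)⟩ hnt
  by_cases h2 : r ^ 2 ∣ m
  · exact sol_of hodd.pos hG (f1c r k hr h2 w u hw hu hc)
  · refine sol_of hodd.pos hG (f1 w u ⟨r, hr, hrp, ?_⟩)
    refine pow_of_sq hr (fun h => h2 ?_) hG hu
    exact Nat.Coprime.dvd_of_dvd_mul_left (Nat.Coprime.pow_left _
      ((Nat.coprime_primes hr hp).2 hrp)) h

theorem crit {p m : ℕ} (hp : p.Prime) (hpm : Nat.Coprime p m) (hodd : Odd (p * m))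
    (hS : SquareCondition m) (hdiv : ∀ s : ℕ, s.Prime → s ∣ m → p ∣ s - 1)
    (hs : (p * m).primeFactors.card ≤ 2 ∨
      (∀ s : ℕ, s.Prime → s ∣ m → Group.IsSolvable (P (p * m) s)) ∧
      (p ≠ 3 → Group.IsSolvable (T (p * m) p))) :
    InL.{u} (p * m) ↔ PrimePowersInL.{u} (p * m) ∧
      (∀ s : ℕ, s.Prime → s ∣ m → Finite (P (p * m) s)) ∧
      (p ≠ 3 → Finite (T (p * m) p)) := by
  refine ⟨fun h => ⟨ppL h, fun _ _ _ => p_finite h _, fun _ => t_finite h _⟩, ?_⟩
  rintro ⟨h1, h2, h3⟩
  exact (inL_iff x_LFD _).2 (locfinT hp hpm (odd_two hodd) hS hdiv (locfin_qp h1)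
    (fun s hs1 hsm => sol_fin hodd.pos OP.bq_exp (h2 s hs1 hsm)
      (hs.imp id fun h => h.1 s hs1 hsm))
    (fun h4 => sol_fin hodd.pos dq_exp (h3 h4) (hs.imp id fun h => h.2 h4)))

theorem lf_three {m : ℕ} (hpm : Nat.Coprime 3 m) (hodd : Odd (3 * m))
    (hS : SquareCondition m) (hdiv : ∀ s : ℕ, s.Prime → s ∣ m → 3 ∣ s - 1)
    (hL : PrimePowersInL.{u} (3 * m)) (G : Type u) [Group G] (hG : ∀ x : G, x ^ (3 * m) = 1)
    (h : ∀ r k : ℕ, r.Prime → r ≠ 3 → ∀ x y : G, y ^ r ^ k = 1 → Tame (3 * m) x y)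
    (S : Set G) (hSf : S.Finite) : Finite (Subgroup.closure S) :=
  lfT_u hpm (odd_two hodd) hS hdiv (locfin_qp hL) G hG
    (fun x y r k hr hr3 hy => sol_of hodd.pos hG (h r k hr hr3 x y hy)) S hSf

theorem L3 : InL.{u} 3 := (inL_iff x_LFD 3).2 x_L34.1

/-- `n = p * q ^ b`, `p ∣ q - 1` -/
theorem pq {p q b : ℕ} (hp : p.Prime) (hq : q.Prime) (hp2 : p ≠ 2) (h : p ∣ q - 1) :
    InL.{u} (p * q ^ b) ↔ InL.{u} p ∧ InL.{u} (q ^ b) ∧
      Finite (P (p * q ^ b) q) ∧ (p ≠ 3 → Finite (T (p * q ^ b) p)) := by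
  refine ⟨fun h => ⟨inL_of_dvd (dvd_mul_right _ _) h, inL_of_dvd (dvd_mul_left _ _) h,
    p_finite h _, fun _ => t_finite h _⟩, ?_⟩
  rintro ⟨h1, h2, h3, h4⟩
  have hlt : p < q := by
    have := Nat.le_of_dvd (by have := hq.two_le; omega) h
    have := hq.two_le
    omega
  have hq2 : q ≠ 2 := by
    have := hp.two_le
    omega
  have hodd : Odd (p * q ^ b) := (hp.odd_of_ne_two hp2).mul (hq.odd_of_ne_two hq2).pow
  have hd : ∀ s : ℕ, s.Prime → s ∣ q ^ b → s = q := fun s hs hsd =>
    (Nat.prime_dvd_prime_iff_eq hs hq).1 (hs.dvd_of_dvd_pow hsd)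
  have hcase : ∀ s : ℕ, s.Prime → s ∣ p * q ^ b → s = p ∨ s = q := by
    intro s hs hsd
    rcases hs.dvd_mul.1 hsd with h5 | h5
    · exact Or.inl ((Nat.prime_dvd_prime_iff_eq hs hp).1 h5)
    · exact Or.inr (hd s hs h5)
  have hcard : (p * q ^ b).primeFactors.card ≤ 2 := by
    have h5 : (p * q ^ b).primeFactors ⊆ {p, q} := by
      intro s hs
      rcases hcase s (Nat.prime_of_mem_primeFactors hs) (Nat.dvd_of_mem_primeFactors hs) with h | h
      · simp [h]
      · simp [h]
    refine (Finset.card_le_card h5).trans ?_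
    exact (Finset.card_insert_le _ _).trans (by simp)
  refine (crit hp (Nat.Coprime.pow_right _ ((Nat.coprime_primes hp hq).2 hlt.ne)) hodd ?_ ?_
    (Or.inl hcard)).2 ⟨?_, fun s hs hsm => ?_, h4⟩
  · intro r s hr hs _ hrs h5 h6
    have h7 := hd r hr ((dvd_pow_self r two_ne_zero).trans h5)
    have h8 := hd s hs ((dvd_pow_self s two_ne_zero).trans h6)
    omega
  · intro s hs hsd
    rw [hd s hs hsd]
    exact h
  · intro r k hr hk h5
    have hk0 : k ≠ 0 := by
      rintro rfl
      rw [pow_zero] at h5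
      omega
    rcases hcase r hr ((dvd_pow_self r hk0).trans hk) with rfl | rfl
    · have h6 : r ^ k ∣ r := Nat.Coprime.dvd_of_dvd_mul_right
        (Nat.Coprime.pow _ _ ((Nat.coprime_primes hr hq).2 hlt.ne)) hk
      exact inL_of_dvd h6 h1
    · exact inL_of_dvd (Nat.Coprime.dvd_of_dvd_mul_left (Nat.Coprime.pow_left _
        ((Nat.coprime_primes hr hp).2 hlt.ne')) hk) h2
  · rw [hd s hs hsm]
    exact h3

/-- `n = 3 * q ^ b`, `3 ∣ q - 1` -/
theorem three_q {q b : ℕ} (hq : q.Prime) (h : 3 ∣ q - 1) :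
    InL.{u} (3 * q ^ b) ↔ InL.{u} (q ^ b) ∧ Finite (P (3 * q ^ b) q) := by
  rw [pq.{u} Nat.prime_three hq (by norm_num) h]
  exact ⟨fun h => ⟨h.2.1, h.2.2.1⟩, fun h => ⟨L3, h.1, h.2, fun h => absurd rfl h⟩⟩

theorem five_swap {m : ℕ} (hm : 3 ≤ m) (h : Finite (P (m * 5) m)) : InL.{u} 5 := by
  refine (inL_iff x_LFD 5).2 (five_of_cq hm ?_)
  have h0 : ((FreeGroup.of 0 : FreeGroup (Fin 2)) : Cq (m * 5) m 5) ^ m = 1 := by
    rw [← QuotientGroup.mk_pow, QuotientGroup.eq_one_iff]
    exact Subgroup.subset_normalClosure (Or.inr (Or.inl rfl))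
  obtain ⟨f, hf⟩ := bq2 (G := Cq (m * 5) m 5) OP.cq_exp
    ((FreeGroup.of 1 : FreeGroup (Fin 2)) : Cq (m * 5) m 5)
    ((FreeGroup.of 0 : FreeGroup (Fin 2)) : Cq (m * 5) m 5) h0
  have hfs : Function.Surjective f := by
    rw [← MonoidHom.range_eq_top, hf, eq_top_iff]
    intro x hx
    clear hx
    obtain ⟨w, rfl⟩ := QuotientGroup.mk_surjective x
    induction w using FreeGroup.induction_on with
    | C1 => exact one_mem _
    | of i =>
      refine Subgroup.subset_closure ?_
      fin_cases i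
      · exact Or.inr rfl
      · exact Or.inl rfl
    | inv_of i hi => exact inv_mem hi
    | mul x y hx hy => exact mul_mem hx hy
  exact Finite.of_surjective f hfs

theorem fifty_five : InL.{u} 55 ↔ InL.{u} 11 ∧ Finite (P 55 11) ∧ Finite (T 55 5) := by
  have h := pq.{u} (p := 5) (q := 11) (b := 1) Nat.prime_five (by norm_num) (by norm_num)
    (by norm_num)
  norm_num at h
  rw [h]
  exact ⟨fun h => h.2, fun h => ⟨five_swap (m := 11) (by norm_num) h.2.1, h⟩⟩

theorem three_primes (s7 : Group.IsSolvable (P 273 7)) (s13 : Group.IsSolvable (P 273 13)) :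
    InL.{u} 273 ↔ InL.{u} 7 ∧ InL.{u} 13 ∧ Finite (P 273 7) ∧ Finite (P 273 13) := by
  have hd : ∀ s : ℕ, s.Prime → s ∣ 91 → s = 7 ∨ s = 13 := by
    intro s hs h
    have h1 : s ∣ 7 * 13 := by
      norm_num
      exact h
    rcases hs.dvd_mul.1 h1 with h2 | h2
    · exact Or.inl ((Nat.prime_dvd_prime_iff_eq hs (by norm_num)).1 h2)
    · exact Or.inr ((Nat.prime_dvd_prime_iff_eq hs (by norm_num)).1 h2)
  have h := crit.{u} (p := 3) (m := 91) Nat.prime_three (by norm_num) (by decide) ?_ ?_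
    (Or.inr ⟨fun s hs hsm => by
      rcases hd s hs hsm with rfl | rfl
      · exact s7
      · exact s13, fun h => absurd rfl h⟩)
  · norm_num at h
    rw [h]
    refine ⟨fun h => ⟨?_, ?_, h.2 7 (by norm_num) (by norm_num), h.2 13 (by norm_num)
      (by norm_num)⟩, fun h => ⟨?_, fun s hs hsm => ?_⟩⟩
    · have := h.1 7 1 (by norm_num) (by norm_num) (by norm_num)
      rwa [pow_one] at this
    · have := h.1 13 1 (by norm_num) (by norm_num) (by norm_num)
      rwa [pow_one] at this
    · intro r k hr hk h4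
      have hk0 : k ≠ 0 := by
        rintro rfl
        rw [pow_zero] at h4
        omega
      have h1 : r ∣ 3 * 91 := by
        norm_num
        exact (dvd_pow_self r hk0).trans hk
      have hk1 : k = 1 := by
        by_contra hne
        have h2 : r ^ 2 ∣ 273 := (pow_dvd_pow r (by omega)).trans hk
        rcases hr.dvd_mul.1 h1 with h3 | h3
        · rw [(Nat.prime_dvd_prime_iff_eq hr Nat.prime_three).1 h3] at h2
          norm_num at h2
        · rcases hd r hr h3 with h5 | h5
          · rw [h5] at h2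
            norm_num at h2
          · rw [h5] at h2
            norm_num at h2
      subst hk1
      rw [pow_one] at h4 ⊢
      rcases hr.dvd_mul.1 h1 with h3 | h3
      · have := (Nat.prime_dvd_prime_iff_eq hr Nat.prime_three).1 h3
        omega
      · rcases hd r hr h3 with h5 | h5
        · rw [h5]
          exact h.1
        · rw [h5]
          exact h.2.1
    · rcases hd s hs hsm with rfl | rfl
      · exact h.2.2.1
      · exact h.2.2.2
  · intro p q hp hq hp2 hpq h5 h6
    exfalso
    rcases hd p hp ((dvd_pow_self p two_ne_zero).trans h5) with h | h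
    · rw [h] at h5
      norm_num at h5
    · rw [h] at h5
      norm_num at h5
  · intro s hs hsm
    rcases hd s hs hsm with rfl | rfl
    · norm_num
    · norm_num

/-- `P n s` is the quotient of the free Burnside group `B_{2,n}` by the normal closure of `x₁ ^ s`, and
`T n p` its quotient by the normal closure of `x₀ ^ p`, `x₁ ^ p`, `(x₀ * x₁) ^ p`. Solubility is only
assumed if `n` has more than two prime divisors.

(1) Let `n = p * m` be odd, `p` a prime not dividing `m`, such that `p ∣ s - 1` for all prime divisors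
`s` of `m`, and let `m` satisfy `SquareCondition` (for example, `m < 665`, `m ≠ 225`).
(1.1) Let `G` be a nontrivial group of exponent dividing `n` in which `⟨x, y⟩` is finite (and soluble) for
all `x` and all `y` of prime order different from `p`; for the primes `r` with `r ^ 2 ∣ m` also if
`x ^ p = 1`, `y` is an `r`-element and `y ^ r` commutes with `x`; and if `p ≠ 3` also if
`x ^ p = y ^ p = 1` and `(x * y) ^ p` commutes with `x`. Then `G` has a nontrivial normal subgroup whose
exponent divides a prime power dividing `n`.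
(1.2) `n ∈ 𝓛` if and only if the prime powers dividing `n` are in `𝓛` and the groups `P n s`, `s` a prime
divisor of `m`, and, if `p ≠ 3`, the group `T n p` are finite (if they are soluble, in case `n` has more
than two prime divisors).
(2) Let `n = 3 * m` be odd, `m` prime to `3`, all prime divisors of `m` congruent to `1` modulo `3`, and
let `m` satisfy `SquareCondition`. If the prime powers dividing `n` are in `𝓛`, then a group of exponent
dividing `n` in which `⟨x, y⟩` is finite (and soluble) for all `x` and all `y` of prime power order prime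
to `3` is locally finite.
(3) Let `p`, `q` be primes, `p` odd, `p ∣ q - 1`. Then `p * q ^ b ∈ 𝓛` if and only if `p, q ^ b ∈ 𝓛`,
`P (p * q ^ b) q` is finite and, if `p ≠ 3`, `T (p * q ^ b) p` is finite. If `q ≡ 1` modulo `3`, then
`3 * q ^ b ∈ 𝓛` if and only if `q ^ b ∈ 𝓛` and `P (3 * q ^ b) q` is finite.
(4) Examples: `n = 21, 39, 147, 55, 273`. -/
theorem result :
    (∀ p m : ℕ, p.Prime → Nat.Coprime p m → Odd (p * m) → SquareCondition m →
      (∀ s : ℕ, s.Prime → s ∣ m → p ∣ s - 1) →
      (∀ (G : Type u) [Group G], (∀ x : G, x ^ (p * m) = 1) →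
        (∀ x y : G, PrimeOrderNe p y → Tame (p * m) x y) →
        (∀ r k : ℕ, r.Prime → r ^ 2 ∣ m → ∀ x y : G, x ^ p = 1 → y ^ r ^ k = 1 →
          Commute (y ^ r) x → Tame (p * m) x y) →
        (p ≠ 3 → ∀ x y : G, x ^ p = 1 → y ^ p = 1 → Commute ((x * y) ^ p) x →
          Tame (p * m) x y) →
        Nontrivial G → ∃ r k : ℕ, r.Prime ∧ r ^ k ∣ p * m ∧
          ∃ N : Subgroup G, N.Normal ∧ N ≠ ⊥ ∧ ∀ x ∈ N, x ^ r ^ k = 1) ∧
      ((p * m).primeFactors.card ≤ 2 ∨
          (∀ s : ℕ, s.Prime → s ∣ m → Group.IsSolvable (P (p * m) s)) ∧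
          (p ≠ 3 → Group.IsSolvable (T (p * m) p)) →
        (InL.{u} (p * m) ↔ PrimePowersInL.{u} (p * m) ∧
          (∀ s : ℕ, s.Prime → s ∣ m → Finite (P (p * m) s)) ∧
          (p ≠ 3 → Finite (T (p * m) p))))) ∧
    (∀ m : ℕ, Nat.Coprime 3 m → Odd (3 * m) → SquareCondition m →
      (∀ s : ℕ, s.Prime → s ∣ m → 3 ∣ s - 1) → PrimePowersInL.{u} (3 * m) →
      ∀ (G : Type u) [Group G], (∀ x : G, x ^ (3 * m) = 1) →
        (∀ r k : ℕ, r.Prime → r ≠ 3 → ∀ x y : G, y ^ r ^ k = 1 → Tame (3 * m) x y) →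
        ∀ S : Set G, S.Finite → Finite (Subgroup.closure S)) ∧
    (∀ p q b : ℕ, p.Prime → q.Prime → p ≠ 2 → p ∣ q - 1 →
      (InL.{u} (p * q ^ b) ↔ InL.{u} p ∧ InL.{u} (q ^ b) ∧
        Finite (P (p * q ^ b) q) ∧ (p ≠ 3 → Finite (T (p * q ^ b) p)))) ∧
    (∀ q b : ℕ, q.Prime → 3 ∣ q - 1 →
      (InL.{u} (3 * q ^ b) ↔ InL.{u} (q ^ b) ∧ Finite (P (3 * q ^ b) q))) ∧
    (InL.{u} 21 ↔ InL.{u} 7 ∧ Finite (P 21 7)) ∧
    (InL.{u} 39 ↔ InL.{u} 13 ∧ Finite (P 39 13)) ∧
    (InL.{u} 147 ↔ InL.{u} 49 ∧ Finite (P 147 7)) ∧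
    (InL.{u} 55 ↔ InL.{u} 11 ∧ Finite (P 55 11) ∧ Finite (T 55 5)) ∧
    (Group.IsSolvable (P 273 7) → Group.IsSolvable (P 273 13) →
      (InL.{u} 273 ↔ InL.{u} 7 ∧ InL.{u} 13 ∧ Finite (P 273 7) ∧ Finite (P 273 13))) := by
  refine ⟨fun p m hp hpm hodd hS hdiv => ⟨fun G _ hG f1 f1c f2 hnt =>
      normal_once hp hpm hodd hS hdiv G hG f1 f1c f2 hnt, fun hs =>
      crit hp hpm hodd hS hdiv hs⟩,
    fun m hpm hodd hS hdiv hL G _ hG h S hSf => lf_three hpm hodd hS hdiv hL G hG h S hSf,
    fun p q b hp hq hp2 h => pq hp hq hp2 h, fun q b hq h => three_q hq h, ?_, ?_, ?_,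
    fifty_five, three_primes⟩
  · have h := three_q.{u} (q := 7) (b := 1) (by norm_num) (by norm_num)
    norm_num at h
    exact h
  · have h := three_q.{u} (q := 13) (b := 1) (by norm_num) (by norm_num)
    norm_num at h
    exact h
  · have h := three_q.{u} (q := 7) (b := 2) (by norm_num) (by norm_num)
    norm_num at h
    exact h

end Pool.Agent.Results.MP_544bd1_al.PrimeDividingOnce
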