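import Mathlib
import Pool.Agent.V5helper30.OE.Lift

/-!
# Two generators, one of odd prime order, decide local finiteness

The earlier results `TwoGenerators`, `PrimePowerSecondGenerator`, `SecondGeneratorPrimeOrder` and
`OddPrimeSecondGenerator` use the finiteness of the subgroups `⟨x, y⟩` for all `y`, for all `y` of prime
power order, and (for `n = 2 ^ a * q ^ b`, or for `n = 2 ^ a * m` under restrictions on `m` and for
normal subgroups of exponent `2 ^ a` or `m`) for smaller sets of `y`.  Here only the elements `y` of odd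
prime *order* are used, for all exponents `n` which satisfy `SquareCondition` (for example all odd
`n < 665`, `n ≠ 225`), and normal subgroups of prime power exponent are obtained.  If `n` is odd and its
least prime divisor `p` divides `s - 1` for the other prime divisors `s`, then for `y` of order `p` only
the `x` with `x ^ p ^ a = 1` are needed.

Outline, odd exponents (library `Pool.Agent.V5helper30.OQ`).  Let `n = p ^ α M`, `p` prime to `M`, let
`G` have exponent `n` and no normal subgroup of exponent `M`, and let `x` be a `p`-element.  By the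
theorem of Hall and Higman `w = x ^ p ^ (α - 1)` lies in `O_{p',p}⟨w, f⟩` for the elements `f` of prime
order `≠ p`.  In the earlier work `w` lies in `O_{p',p}(E)` for *all* finite soluble `E` containing it
(this needs `f` of prime power order and `⟨x, f⟩` for all `f`), and this is not available here.

1. (`Ab`, `Non`, `LemZ`, `LemY`.)  Let `U` be a minimal finite `s`-group on which `w` acts nontrivially.
If `K` is a finite soluble group containing `w` and `U`, then `U ≤ O_{p'}(K)`.  For this one shows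
that `U` centralises the elementary abelian normal `p`-subgroups `V` of the quotients of `K`: the groups
`⟨w, v⁻¹ u v⟩`, `u ∈ U`, `v ∈ V`, have `p'`-complements normalised by `w`, which gives fixed points of
`u` in all cosets of `C_V(w)`; if `U` is elementary abelian, then by a covering argument (a vector space
over a field with `p` elements is not a union of few subspaces) `U` acts trivially; if `U` is of class
two, one uses the norm of `u` and the commutators with `u`.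

2. (`Min`, `Str`.)  The group `U` is elementary abelian, and no element of `U` generates a subgroup
normalised by `w`; so `U` does not exist if `p ∣ s - 1`.

3. (`Rd`.)  If `w` centralises all finite `p'`-subgroups which it normalises, then `w` is in the largest
normal `p`-subgroup of the finite soluble groups containing it, and `w = 1` if `G` has no normal
`p`-subgroups.  (`Small`.)  If `s ^ 2 ∤ n`, there is no `U` either, by the theorem of Hall and Higman for
the elements of order `s`.  (`Main`.)  Induction on `n`.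

Even exponents (library `Pool.Agent.V5helper30.OE`).  Involutions outside the radical invert an element
`v` of odd prime order (see `OddPrimeSecondGenerator`).  By 1, applied to `U = ⟨v⟩`, this is not
possible for `w = x ^ 2 ^ (α - 1)`, `x` a `2`-element; only the groups `⟨x, f⟩`, `f` of odd prime order,
are used (`Base`).  For the exceptional primes `q` of the theorem of Hall and Higman, which divide `n`
once, centralisers of elements of order `q` are treated (`Cen`, `Exc`).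
-/

set_option autoImplicit false

namespace Pool.Agent.Results.MP_544bd1_al.PrimeOrderAllExponents

open Pool.Agent Pool.Agent.H32BU Pool.Agent.TH69.Og Pool.Agent.N6.TrN Pool.Agent.N6.Pf
open Pool.Agent.N6.Pg Pool.Agent.V5helper30 Pool.Agent.V5helper30.OE

universe u

/-- `n ∈ 𝓛`: every group satisfying `x ^ n = 1` is locally finite. -/
def InL (n : ℕ) : Prop := ∀ (G : Type u) [Group G], (∀ x : G, x ^ n = 1) →
  ∀ S : Set G, S.Finite → Finite (Subgroup.closure S)

/-- Every prime power greater than `4` dividing `n` is in `𝓛`. -/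
def PrimePowersInL (n : ℕ) : Prop :=
  ∀ p k : ℕ, p.Prime → p ^ k ∣ n → 4 < p ^ k → InL.{u} (p ^ k)

/-- The largest group of exponent dividing `n` generated by two elements `x₀, x₁` with
`x₁ ^ s = 1`: the quotient of the free Burnside group `B_{2,n}` by the normal closure of `x₁ ^ s`. -/
abbrev P (n s : ℕ) : Type :=
  FreeGroup (Fin 2) ⧸ Subgroup.normalClosure
    ((Set.range fun w : FreeGroup (Fin 2) => w ^ n) ∪ {FreeGroup.of 1 ^ s})

/-- The largest group of exponent dividing `n` generated by two elements `x₀, x₁` with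
`x₀ ^ r = 1` and `x₁ ^ s = 1`. -/
abbrev P2 (n r s : ℕ) : Type :=
  FreeGroup (Fin 2) ⧸ Subgroup.normalClosure
    ((Set.range fun w : FreeGroup (Fin 2) => w ^ n) ∪ {FreeGroup.of 0 ^ r, FreeGroup.of 1 ^ s})

/-- `y` has prime order different from `p`, or `y = 1`. -/
def PrimeOrderNe (p : ℕ) {G : Type u} [Group G] (y : G) : Prop :=
  ∃ s : ℕ, s.Prime ∧ s ≠ p ∧ y ^ s = 1

/-- `y` has odd prime power order, or `y = 1`. -/
def OddPrimePowerOrder {G : Type u} [Group G] (y : G) : Prop :=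
  ∃ s k : ℕ, s.Prime ∧ s ≠ 2 ∧ y ^ s ^ k = 1

/-- The subgroup generated by `x` and `y` is finite, and soluble if `n` has more than two prime
divisors. -/
def Tame (n : ℕ) {G : Type u} [Group G] (x y : G) : Prop :=
  Finite (Subgroup.closure {x, y}) ∧
    (n.primeFactors.card ≤ 2 ∨ Group.IsSolvable (Subgroup.closure {x, y}))

/-- The condition on `n`: if `p < q` are odd primes whose squares divide `n`, then `p` divides
`q - 1`. -/
def SquareCondition (n : ℕ) : Prop := ∀ p q : ℕ, p.Prime → q.Prime → 2 < p → p < q →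
  p ^ 2 ∣ n → q ^ 2 ∣ n → p ∣ q - 1

/-- `k` is exceptional for `n`: `k ≥ 2`, `2 ^ k - 1` is a prime, and `n` is divisible by
`2 ^ k * (2 ^ k - 1) ^ 2`. -/
def Exceptional (n k : ℕ) : Prop :=
  2 ≤ k ∧ (2 ^ k - 1).Prime ∧ 2 ^ k * (2 ^ k - 1) ^ 2 ∣ n

theorem inL_of_dvd {n d : ℕ} (h : d ∣ n) (hL : InL.{u} n) : InL.{u} d := by
  obtain ⟨c, rfl⟩ := h
  exact fun G _ hG => hL G fun x => by rw [pow_mul, hG, one_pow]

theorem ppL {n : ℕ} (h : InL.{u} n) : PrimePowersInL.{u} n := fun _ _ _ hd _ => inL_of_dvd hd h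

theorem p_finite {n : ℕ} (h : InL.{u} n) (s : ℕ) : Finite (P n s) :=
  bq_finite ((inL_iff x_LFD n).1 h) s

theorem p2_finite {n : ℕ} (h : InL.{u} n) (r s : ℕ) : Finite (P2 n r s) :=
  OP.cq_finite ((inL_iff x_LFD n).1 h) r s

theorem odd_two {m : ℕ} (hm : Odd m) : ¬ 2 ∣ m := by
  intro h
  exact (Nat.not_even_iff_odd.2 hm) (even_iff_two_dvd.2 h)

/-- finite subgroups are soluble -/
theorem sol_of {n : ℕ} (hn : 0 < n) {G : Type u} [Group G] (hG : ∀ x : G, x ^ n = 1)
    {x y : G} (h : Tame n x y) :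
    Finite (Subgroup.closure {x, y}) ∧ Group.IsSolvable (Subgroup.closure {x, y}) := by
  rcases h.2 with h1 | h1
  · exact ⟨h.1, sol_two hn h1 hG _ h.1⟩
  · exact ⟨h.1, h1⟩

theorem sol_fin {n : ℕ} (hn : 0 < n) {H : Type} [Group H] (hH : ∀ x : H, x ^ n = 1) (hf : Finite H)
    (h : n.primeFactors.card ≤ 2 ∨ Group.IsSolvable H) : Finite H ∧ Group.IsSolvable H := by
  refine ⟨hf, ?_⟩
  rcases h with h | h
  · have h1 := sol_two hn h hH (⊤ : Subgroup H) inferInstance
    exact Group.isSolvable_of_surjective (f := (Subgroup.topEquiv (G := H)).toMonoidHom)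
      (Subgroup.topEquiv (G := H)).surjective
  · exact h

theorem pos_of {a m : ℕ} (hm : Odd m) : 0 < 2 ^ a * m :=
  Nat.mul_pos (Nat.pow_pos (by norm_num)) hm.pos

theorem normal_even {a m : ℕ} (hm : Odd m) (hS : SquareCondition (2 ^ a * m))
    (G : Type u) [Group G] (hG : ∀ x : G, x ^ (2 ^ a * m) = 1)
    (hE : ∀ k : ℕ, Exceptional (2 ^ a * m) k → ∀ g : G, orderOf g ≠ 2 ^ k * (2 ^ k - 1))
    (f1 : ∀ x y : G, PrimeOrderNe 2 y → Tame (2 ^ a * m) x y)
    (f3 : 3 ≤ a → ∀ x y : G, x ^ 2 = 1 → y ^ 2 ^ a = 1 → Tame (2 ^ a * m) x y)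
    (hnt : Nontrivial G) : ∃ p k : ℕ, p.Prime ∧ p ^ k ∣ 2 ^ a * m ∧
      ∃ N : Subgroup G, N.Normal ∧ N ≠ ⊥ ∧ ∀ x ∈ N, x ^ p ^ k = 1 :=
  exists_normalE (odd_two hm) hS G (fun k h1 h2 h3 => hE k ⟨h1, h2, h3⟩)
    ⟨hG, fun x y hy => sol_of (pos_of hm) hG (f1 x y hy),
      fun ha w z hw hz => sol_of (pos_of hm) hG (f3 ha w z hw hz)⟩ hnt

theorem crit {a m : ℕ} (hm : Odd m) (hS : SquareCondition (2 ^ a * m))
    (hE : ∀ k : ℕ, ¬ Exceptional (2 ^ a * m) k)
    (hs : (2 ^ a * m).primeFactors.card ≤ 2 ∨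
      (∀ s : ℕ, s.Prime → s ∣ m → Group.IsSolvable (P (2 ^ a * m) s)) ∧
      (3 ≤ a → Group.IsSolvable (P2 (2 ^ a * m) 2 (2 ^ a)))) :
    InL.{u} (2 ^ a * m) ↔ PrimePowersInL.{u} (2 ^ a * m) ∧
      (∀ s : ℕ, s.Prime → s ∣ m → Finite (P (2 ^ a * m) s)) ∧
      (3 ≤ a → Finite (P2 (2 ^ a * m) 2 (2 ^ a))) := by
  refine ⟨fun h => ⟨ppL h, fun _ _ _ => p_finite h _, fun _ => p2_finite h _ _⟩, ?_⟩
  rintro ⟨h1, h2, h3⟩
  have hn := pos_of (a := a) hm
  exact (inL_iff x_LFD _).2 (locfinE (odd_two hm) hS (fun k h1 h2 h3 => hE k ⟨h1, h2, h3⟩)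
    (locfin_qp h1)
    (fun s hs1 hsm => sol_fin hn OP.bq_exp (h2 s hs1 hsm) (hs.imp id fun h => h.1 s hs1 hsm))
    (fun ha => sol_fin hn OP.cq_exp (h3 ha) (hs.imp id fun h => h.2 ha)))

theorem normal_odd {p a m : ℕ} (hp : p.Prime) (hpm : Nat.Coprime p m) (hodd : Odd (p ^ a * m))
    (hS : SquareCondition m) (hdiv : ∀ s : ℕ, s.Prime → s ∣ m → p ∣ s - 1)
    (G : Type u) [Group G] (hG : ∀ x : G, x ^ (p ^ a * m) = 1)
    (f1 : ∀ x y : G, PrimeOrderNe p y → Tame (p ^ a * m) x y)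
    (f2 : ∀ x y : G, x ^ p ^ a = 1 → y ^ p = 1 → Tame (p ^ a * m) x y)
    (hnt : Nontrivial G) : ∃ r k : ℕ, r.Prime ∧ r ^ k ∣ p ^ a * m ∧
      ∃ N : Subgroup G, N.Normal ∧ N ≠ ⊥ ∧ ∀ x ∈ N, x ^ r ^ k = 1 :=
  exists_normalP hp hpm (odd_two hodd) hS hdiv G
    ⟨hG, fun x y hy => sol_of hodd.pos hG (f1 x y hy),
      fun w z hw hz => sol_of hodd.pos hG (f2 w z hw hz)⟩ hnt

theorem crit_odd {p a m : ℕ} (hp : p.Prime) (hpm : Nat.Coprime p m) (hodd : Odd (p ^ a * m))
    (hS : SquareCondition m) (hdiv : ∀ s : ℕ, s.Prime → s ∣ m → p ∣ s - 1)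
    (hs : (p ^ a * m).primeFactors.card ≤ 2 ∨
      (∀ s : ℕ, s.Prime → s ∣ m → Group.IsSolvable (P (p ^ a * m) s)) ∧
      Group.IsSolvable (P2 (p ^ a * m) (p ^ a) p)) :
    InL.{u} (p ^ a * m) ↔ PrimePowersInL.{u} (p ^ a * m) ∧
      (∀ s : ℕ, s.Prime → s ∣ m → Finite (P (p ^ a * m) s)) ∧
      Finite (P2 (p ^ a * m) (p ^ a) p) := by
  refine ⟨fun h => ⟨ppL h, fun _ _ _ => p_finite h _, p2_finite h _ _⟩, ?_⟩
  rintro ⟨h1, h2, h3⟩
  exact (inL_iff x_LFD _).2 (locfinP hp hpm (odd_two hodd) hS hdiv (locfin_qp h1)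
    (fun s hs1 hsm => sol_fin hodd.pos OP.bq_exp (h2 s hs1 hsm)
      (hs.imp id fun h => h.1 s hs1 hsm))
    (sol_fin hodd.pos OP.cq_exp h3 (hs.imp id fun h => h.2)))

theorem lf_level {a m : ℕ} (hm : Odd m) (hS : SquareCondition (2 ^ a * m))
    (hE : ∀ k : ℕ, ¬ Exceptional (2 ^ a * m) k) (hL : PrimePowersInL.{u} (2 ^ a * m))
    (G : Type u) [Group G] (hG : ∀ x : G, x ^ (2 ^ a * m) = 1)
    (h : ∀ x y : G, OddPrimePowerOrder y → Tame (2 ^ a * m) x y)
    (h3 : 3 ≤ a → ∀ x y : G, x ^ 2 ^ a = 1 → y ^ 2 ^ a = 1 → Tame (2 ^ a * m) x y)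
    (S : Set G) (hSf : S.Finite) : Finite (Subgroup.closure S) :=
  lfE_u (odd_two hm) hS (locfin_qp hL) (fun k h1 h2 h3 => hE k ⟨h1, h2, h3⟩) G hG
    (fun x y hy => sol_of (pos_of hm) hG (h x y hy))
    (fun ha w z hw hz => sol_of (pos_of hm) hG (h3 ha w z hw hz)) S hSf

/-- prime divisors of products of two prime powers -/
theorem prime_cases {p q a b r : ℕ} (hp : p.Prime) (hq : q.Prime) (hr : r.Prime)
    (h : r ∣ p ^ a * q ^ b) : r = p ∨ r = q := by
  rcases hr.dvd_mul.1 h with h1 | h1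
  · exact Or.inl ((Nat.prime_dvd_prime_iff_eq hr hp).1 (hr.dvd_of_dvd_pow h1))
  · exact Or.inr ((Nat.prime_dvd_prime_iff_eq hr hq).1 (hr.dvd_of_dvd_pow h1))

theorem card_two {p q a b : ℕ} (hp : p.Prime) (hq : q.Prime) :
    (p ^ a * q ^ b).primeFactors.card ≤ 2 := by
  have h : (p ^ a * q ^ b).primeFactors ⊆ {p, q} := by
    intro r hr
    rcases prime_cases hp hq (Nat.prime_of_mem_primeFactors hr)
      (Nat.dvd_of_mem_primeFactors hr) with h | h
    · simp [h]
    · simp [h]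
  refine (Finset.card_le_card h).trans ?_
  exact (Finset.card_insert_le _ _).trans (by simp)

theorem pp_two {p q a b : ℕ} (hp : p.Prime) (hq : q.Prime) (hpq : p ≠ q)
    (h1 : InL.{u} (p ^ a)) (h2 : InL.{u} (q ^ b)) : PrimePowersInL.{u} (p ^ a * q ^ b) := by
  intro r k hr hk h4
  have hco : Nat.Coprime (p ^ a) (q ^ b) := Nat.Coprime.pow _ _ ((Nat.coprime_primes hp hq).2 hpq)
  have hk0 : k ≠ 0 := by
    rintro rfl
    rw [pow_zero] at h4
    omega
  rcases prime_cases hp hq hr ((dvd_pow_self r hk0).trans hk) with rfl | rfl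
  · exact inL_of_dvd (Nat.Coprime.dvd_of_dvd_mul_right
      (Nat.Coprime.pow _ _ ((Nat.coprime_primes hp hq).2 hpq)) hk) h1
  · exact inL_of_dvd (Nat.Coprime.dvd_of_dvd_mul_left
      (Nat.Coprime.pow _ _ ((Nat.coprime_primes hq hp).2 hpq.symm)) hk) h2

theorem L4 : InL.{u} 4 := (inL_iff x_LFD 4).2 x_L34.2

theorem L3 : InL.{u} 3 := (inL_iff x_LFD 3).2 x_L34.1

/-- `n = 2 ^ a * q ^ b` -/
theorem two_q {a q b : ℕ} (hq : q.Prime) (hq2 : q ≠ 2) (ha : a ≤ 2)
    (h : a = 2 → q = 3 → b ≤ 1) :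
    InL.{u} (2 ^ a * q ^ b) ↔ InL.{u} (q ^ b) ∧ Finite (P (2 ^ a * q ^ b) q) := by
  refine ⟨fun h => ⟨inL_of_dvd (dvd_mul_left _ _) h, p_finite h _⟩, ?_⟩
  rintro ⟨h1, h2⟩
  have hodd : Odd (q ^ b) := (hq.odd_of_ne_two hq2).pow
  refine (crit hodd ?_ ?_ (Or.inl (card_two Nat.prime_two hq))).2 ⟨?_, ?_, fun h3 => by omega⟩
  · intro r s hr hs hr2 hrs h3 h4
    rcases prime_cases Nat.prime_two hq hr ((dvd_pow_self r two_ne_zero).trans h3) with h5 | h5
    · omega
    · rcases prime_cases Nat.prime_two hq hs ((dvd_pow_self s two_ne_zero).trans h4) with h6 | h6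
      · omega
      · omega
  · rintro k ⟨hk, hkp, hkd⟩
    have h3 : 2 ^ k ∣ 2 ^ a := by
      refine Nat.Coprime.dvd_of_dvd_mul_right ?_ ((dvd_mul_right _ _).trans hkd)
      exact Nat.Coprime.pow _ _ ((Nat.coprime_primes Nat.prime_two hq).2 hq2.symm)
    have h4 : k ≤ a := (Nat.pow_dvd_pow_iff_le_right (by norm_num)).1 h3
    have h5 : k = 2 := by omega
    have h6 : a = 2 := by omega
    subst h5
    subst h6
    have h7 : 3 ^ 2 ∣ 2 ^ 2 * q ^ b := (dvd_mul_left _ _).trans hkd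
    have h8 : 3 ^ 2 ∣ q ^ b := Nat.Coprime.dvd_of_dvd_mul_left (by norm_num) h7
    have h9 : q = 3 := ((Nat.prime_dvd_prime_iff_eq Nat.prime_three hq).1
      (Nat.prime_three.dvd_of_dvd_pow ((dvd_pow_self 3 two_ne_zero).trans h8))).symm
    rw [h9] at h8
    have h10 := (Nat.pow_dvd_pow_iff_le_right (by norm_num)).1 h8
    have h11 := h rfl h9
    omega
  · exact pp_two Nat.prime_two hq hq2.symm (inL_of_dvd (pow_dvd_pow 2 ha : 2 ^ a ∣ 2 ^ 2) L4) h1
  · intro s hs hsm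
    have e : s = q := (Nat.prime_dvd_prime_iff_eq hs hq).1 (hs.dvd_of_dvd_pow hsm)
    rw [e]
    exact h2

/-- `n = p ^ a * q ^ b`, odd -/
theorem odd_pq {p q a b : ℕ} (hp : p.Prime) (hq : q.Prime) (hp2 : p ≠ 2) (hq2 : q ≠ 2)
    (hpq : p ≠ q) (h : a ≤ 1 ∨ b ≤ 1 ∨ p ∣ q - 1 ∨ q ∣ p - 1) :
    InL.{u} (p ^ a * q ^ b) ↔ InL.{u} (p ^ a) ∧ InL.{u} (q ^ b) ∧
      Finite (P (p ^ a * q ^ b) p) ∧ Finite (P (p ^ a * q ^ b) q) := by
  refine ⟨fun h => ⟨inL_of_dvd (dvd_mul_right _ _) h, inL_of_dvd (dvd_mul_left _ _) h,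
    p_finite h _, p_finite h _⟩, ?_⟩
  rintro ⟨h1, h2, h3, h4⟩
  have hodd : Odd (p ^ a * q ^ b) := (hp.odd_of_ne_two hp2).pow.mul (hq.odd_of_ne_two hq2).pow
  have hsq : ∀ {x y c d : ℕ}, x.Prime → y.Prime → x ≠ y → x ^ 2 ∣ x ^ c * y ^ d → 2 ≤ c := by
    intro x y c d hx hy hxy hd
    have h5 : x ^ 2 ∣ x ^ c := Nat.Coprime.dvd_of_dvd_mul_right
      (Nat.Coprime.pow _ _ ((Nat.coprime_primes hx hy).2 hxy)) hd
    exact (Nat.pow_dvd_pow_iff_le_right hx.one_lt).1 h5
  have hlt : ∀ {x y : ℕ}, x.Prime → y.Prime → x < y → ¬ y ∣ x - 1 := by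
    intro x y hx hy hxy hd
    have := Nat.le_of_dvd (by have := hx.two_le; omega) hd
    omega
  have h5 := crit.{u} (a := 0) (m := p ^ a * q ^ b) hodd ?_ ?_
    (Or.inl (by rw [pow_zero, one_mul]; exact card_two hp hq))
  · rw [pow_zero, one_mul] at h5
    refine h5.2 ⟨pp_two hp hq hpq h1 h2, fun s hs hsm => ?_, fun h6 => by omega⟩
    rcases prime_cases hp hq hs hsm with rfl | rfl
    · exact h3
    · exact h4
  · rw [pow_zero, one_mul]
    intro r s hr hs hr2 hrs h5 h6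
    rcases prime_cases hp hq hr ((dvd_pow_self r two_ne_zero).trans h5) with h7 | h7
    · rcases prime_cases hp hq hs ((dvd_pow_self s two_ne_zero).trans h6) with h8 | h8
      · omega
      · subst h7
        subst h8
        have h9 := hsq hr hs hpq h5
        rw [mul_comm] at h6
        have h10 := hsq hs hr hpq.symm h6
        rcases h with h | h | h | h
        · omega
        · omega
        · exact h
        · exact absurd h (hlt hr hs hrs)
    · rcases prime_cases hp hq hs ((dvd_pow_self s two_ne_zero).trans h6) with h8 | h8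
      · subst h7
        subst h8
        have h9 := hsq hs hr hpq h6
        rw [mul_comm] at h5
        have h10 := hsq hr hs hpq.symm h5
        rcases h with h | h | h | h
        · omega
        · omega
        · exact absurd h (hlt hr hs hrs)
        · exact h
      · omega
  · rintro k ⟨hk, hkp, hkd⟩
    rw [pow_zero, one_mul] at hkd
    exact odd_two hodd (((dvd_pow_self 2 (by omega)).trans (dvd_mul_right _ _)).trans hkd)

/-- `n = p ^ a * q ^ b`, `p ∣ q - 1` -/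
theorem odd_pq' {p q a b : ℕ} (hp : p.Prime) (hq : q.Prime) (hp2 : p ≠ 2) (h : p ∣ q - 1) :
    InL.{u} (p ^ a * q ^ b) ↔ InL.{u} (p ^ a) ∧ InL.{u} (q ^ b) ∧
      Finite (P (p ^ a * q ^ b) q) ∧ Finite (P2 (p ^ a * q ^ b) (p ^ a) p) := by
  refine ⟨fun h => ⟨inL_of_dvd (dvd_mul_right _ _) h, inL_of_dvd (dvd_mul_left _ _) h,
    p_finite h _, p2_finite h _ _⟩, ?_⟩
  rintro ⟨h1, h2, h3, h4⟩
  have hlt : p < q := by
    have := Nat.le_of_dvd (by have := hq.two_le; omega) h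
    have := hq.two_le
    omega
  have hq2 : q ≠ 2 := by
    have := hp.two_le
    omega
  have hodd : Odd (p ^ a * q ^ b) := (hp.odd_of_ne_two hp2).pow.mul (hq.odd_of_ne_two hq2).pow
  have hd : ∀ s : ℕ, s.Prime → s ∣ q ^ b → s = q := fun s hs hsd =>
    (Nat.prime_dvd_prime_iff_eq hs hq).1 (hs.dvd_of_dvd_pow hsd)
  refine (crit_odd hp (Nat.Coprime.pow_right _ ((Nat.coprime_primes hp hq).2 hlt.ne)) hodd ?_ ?_
    (Or.inl (card_two hp hq))).2 ⟨pp_two hp hq hlt.ne h1 h2, fun s hs hsm => ?_, h4⟩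
  · intro r s hr hs _ hrs h5 h6
    have h7 := hd r hr ((dvd_pow_self r two_ne_zero).trans h5)
    have h8 := hd s hs ((dvd_pow_self s two_ne_zero).trans h6)
    omega
  · intro s hs hsd
    rw [hd s hs hsd]
    exact h
  · rw [hd s hs hsm]
    exact h3

theorem primes60 {s : ℕ} (hs : s.Prime) (h : s ∣ 15) : s = 3 ∨ s = 5 := by
  have h4 : s ∣ 3 ^ 1 * 5 ^ 1 := by
    norm_num
    exact h
  exact prime_cases Nat.prime_three Nat.prime_five hs h4

theorem sixty (s3 : Group.IsSolvable (P 60 3)) (s5 : Group.IsSolvable (P 60 5)) :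
    InL.{u} 60 ↔ Finite (P 60 3) ∧ Finite (P 60 5) := by
  refine ⟨fun h => ⟨p_finite h _, p_finite h _⟩, ?_⟩
  rintro ⟨f3, f5⟩
  have h5 : InL.{u} 5 := (inL_iff x_LFD 5).2 (five_of_bq (m := 12) (by norm_num) f5)
  have h := (crit.{u} (a := 2) (m := 15) (by decide) ?_ ?_ (Or.inr ⟨fun s hs hsm => by
      rcases primes60 hs hsm with rfl | rfl
      · exact s3
      · exact s5, fun h => by omega⟩)).2 ⟨?_, fun s hs hsm => by
        rcases primes60 hs hsm with rfl | rfl
        · exact f3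
        · exact f5, fun h => by omega⟩
  · exact h
  · exact sqP_small (by decide) (by norm_num) (by norm_num) 2
  · rintro k ⟨hk, hkp, hkd⟩
    have h4 : 2 ^ 2 ≤ 2 ^ k := Nat.pow_le_pow_right (by norm_num) hk
    have h6 : 3 ^ 2 ≤ (2 ^ k - 1) ^ 2 := Nat.pow_le_pow_left (by omega) 2
    have h8 : k = 2 ∨ 3 ≤ k := by omega
    rcases h8 with rfl | h8
    · norm_num at hkd
    · have h9 : 2 ^ 3 ≤ 2 ^ k := Nat.pow_le_pow_right (by norm_num) h8
      have h10 : 7 ^ 2 ≤ (2 ^ k - 1) ^ 2 := Nat.pow_le_pow_left (by omega) 2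
      have h11 : 2 ^ 3 * 7 ^ 2 ≤ 2 ^ k * (2 ^ k - 1) ^ 2 := Nat.mul_le_mul h9 h10
      have h12 := Nat.le_of_dvd (by norm_num) hkd
      omega
  · intro p k hp hk h4
    norm_num at hk
    have hk0 : k ≠ 0 := by
      rintro rfl
      rw [pow_zero] at h4
      omega
    have hp60 : p ∣ 60 := (dvd_pow_self p hk0).trans hk
    have hp6 : p = 2 ∨ p = 3 ∨ p = 5 := by
      have h6 : p ∣ 2 ^ 2 * 15 := by
        norm_num
        exact hp60
      rcases hp.dvd_mul.1 h6 with h7 | h7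
      · exact Or.inl ((Nat.prime_dvd_prime_iff_eq hp Nat.prime_two).1 (hp.dvd_of_dvd_pow h7))
      · exact Or.inr (primes60 hp h7)
    rcases hp6 with rfl | rfl | rfl
    · have h7 : 2 ^ k ∣ 2 ^ 2 * 15 := by
        norm_num
        exact hk
      have h8 : 2 ^ k ∣ 2 ^ 2 := Nat.Coprime.dvd_of_dvd_mul_right
        (Nat.Coprime.pow_left _ (by norm_num)) h7
      exact inL_of_dvd h8 L4
    · have h7 : 3 ^ k ∣ 3 * 20 := by
        norm_num
        exact hk
      have h8 : 3 ^ k ∣ 3 := Nat.Coprime.dvd_of_dvd_mul_right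
        (Nat.Coprime.pow_left _ (by norm_num)) h7
      exact inL_of_dvd h8 L3
    · have h7 : 5 ^ k ∣ 5 * 12 := by
        norm_num
        exact hk
      have h8 : 5 ^ k ∣ 5 := Nat.Coprime.dvd_of_dvd_mul_right
        (Nat.Coprime.pow_left _ (by norm_num)) h7
      exact inL_of_dvd h8 h5

/-- `P n s` is the quotient of the free Burnside group `B_{2,n}` by the normal closure of `x₁ ^ s`, and
`P2 n r s` its quotient by the normal closure of `x₀ ^ r` and `x₁ ^ s`. Solubility is only assumed if `n`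
has more than two prime divisors.

(0) If `m` is odd, `m < 665` and `m ≠ 225`, then `2 ^ a * m` satisfies `SquareCondition`.
(1) Let `n = 2 ^ a * m`, `m` odd, satisfy `SquareCondition`.
(1.1) Let `G` be a nontrivial group of exponent dividing `n`, without elements of order
`2 ^ k * (2 ^ k - 1)` for the `k` which are exceptional for `n` (for example `n` odd), such that `⟨x, y⟩`
is finite (and soluble) for all `x` and all `y` of odd prime order, and, if `a ≥ 3`, for `x ^ 2 = 1`,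
`y ^ 2 ^ a = 1`. Then `G` has a nontrivial normal subgroup whose exponent divides a prime power
dividing `n`.
(1.2) Suppose that no `k` is exceptional for `n` and that the prime powers dividing `n` are in `𝓛`. A
group of exponent dividing `n` in which `⟨x, y⟩` is finite (and soluble) for all `x` and all `y` of odd
prime power order, and, if `a ≥ 3`, for all `2`-elements `x`, `y`, is locally finite.
(1.3) Suppose that no `k` is exceptional for `n`. Then `n ∈ 𝓛` if and only if the prime powers dividing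
`n` are in `𝓛` and the groups `P n s`, `s` an odd prime divisor of `n`, and, if `a ≥ 3`, `P2 n 2 (2 ^ a)`
are finite (if they are soluble, in case `n` has more than two prime divisors).
(2) Let `n = p ^ a * m` be odd, `p` a prime not dividing `m`, such that `p ∣ s - 1` for all prime
divisors `s` of `m`, and let `m` satisfy `SquareCondition`. Then (1.1) holds if `⟨x, y⟩` is finite (and
soluble) for all `x` and all `y` of prime order different from `p`, and for `x ^ p ^ a = 1`, `y ^ p = 1`;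
and `n ∈ 𝓛` if and only if the prime powers dividing `n` are in `𝓛` and the groups `P n s`, `s` a prime
divisor of `m`, and `P2 n (p ^ a) p` are finite.
(3) Let `q` be an odd prime, `a ≤ 2` (`b ≤ 1` if `a = 2`, `q = 3`). Then `2 ^ a * q ^ b ∈ 𝓛` if and only if
`q ^ b ∈ 𝓛` and `P (2 ^ a * q ^ b) q` is finite. Let `p`, `q` be different odd primes,
`n = p ^ a * q ^ b`. If `a ≤ 1` or `b ≤ 1` or `p ∣ q - 1` or `q ∣ p - 1`, then `n ∈ 𝓛` if and only if
`p ^ a, q ^ b ∈ 𝓛` and `P n p`, `P n q` are finite. If `p ∣ q - 1`, then `P n p` may be replaced by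
`P2 n (p ^ a) p`.
(4) Examples: `n = 45, 63, 100, 60`. -/
theorem result :
    (∀ a m : ℕ, Odd m → m < 665 → m ≠ 225 → SquareCondition (2 ^ a * m)) ∧
    (∀ a m : ℕ, Odd m → SquareCondition (2 ^ a * m) →
      (∀ (G : Type u) [Group G], (∀ x : G, x ^ (2 ^ a * m) = 1) →
        (∀ k : ℕ, Exceptional (2 ^ a * m) k → ∀ g : G, orderOf g ≠ 2 ^ k * (2 ^ k - 1)) →
        (∀ x y : G, PrimeOrderNe 2 y → Tame (2 ^ a * m) x y) →
        (3 ≤ a → ∀ x y : G, x ^ 2 = 1 → y ^ 2 ^ a = 1 → Tame (2 ^ a * m) x y) →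
        Nontrivial G → ∃ p k : ℕ, p.Prime ∧ p ^ k ∣ 2 ^ a * m ∧
          ∃ N : Subgroup G, N.Normal ∧ N ≠ ⊥ ∧ ∀ x ∈ N, x ^ p ^ k = 1) ∧
      ((∀ k : ℕ, ¬ Exceptional (2 ^ a * m) k) →
        (PrimePowersInL.{u} (2 ^ a * m) →
          ∀ (G : Type u) [Group G], (∀ x : G, x ^ (2 ^ a * m) = 1) →
          (∀ x y : G, OddPrimePowerOrder y → Tame (2 ^ a * m) x y) →
          (3 ≤ a → ∀ x y : G, x ^ 2 ^ a = 1 → y ^ 2 ^ a = 1 → Tame (2 ^ a * m) x y) →
          ∀ S : Set G, S.Finite → Finite (Subgroup.closure S)) ∧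
        ((2 ^ a * m).primeFactors.card ≤ 2 ∨
            (∀ s : ℕ, s.Prime → s ∣ m → Group.IsSolvable (P (2 ^ a * m) s)) ∧
            (3 ≤ a → Group.IsSolvable (P2 (2 ^ a * m) 2 (2 ^ a))) →
          (InL.{u} (2 ^ a * m) ↔ PrimePowersInL.{u} (2 ^ a * m) ∧
            (∀ s : ℕ, s.Prime → s ∣ m → Finite (P (2 ^ a * m) s)) ∧
            (3 ≤ a → Finite (P2 (2 ^ a * m) 2 (2 ^ a))))))) ∧
    (∀ p a m : ℕ, p.Prime → Nat.Coprime p m → Odd (p ^ a * m) → SquareCondition m →
      (∀ s : ℕ, s.Prime → s ∣ m → p ∣ s - 1) →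
      (∀ (G : Type u) [Group G], (∀ x : G, x ^ (p ^ a * m) = 1) →
        (∀ x y : G, PrimeOrderNe p y → Tame (p ^ a * m) x y) →
        (∀ x y : G, x ^ p ^ a = 1 → y ^ p = 1 → Tame (p ^ a * m) x y) →
        Nontrivial G → ∃ r k : ℕ, r.Prime ∧ r ^ k ∣ p ^ a * m ∧
          ∃ N : Subgroup G, N.Normal ∧ N ≠ ⊥ ∧ ∀ x ∈ N, x ^ r ^ k = 1) ∧
      ((p ^ a * m).primeFactors.card ≤ 2 ∨
          (∀ s : ℕ, s.Prime → s ∣ m → Group.IsSolvable (P (p ^ a * m) s)) ∧
          Group.IsSolvable (P2 (p ^ a * m) (p ^ a) p) →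
        (InL.{u} (p ^ a * m) ↔ PrimePowersInL.{u} (p ^ a * m) ∧
          (∀ s : ℕ, s.Prime → s ∣ m → Finite (P (p ^ a * m) s)) ∧
          Finite (P2 (p ^ a * m) (p ^ a) p)))) ∧
    (∀ a q b : ℕ, q.Prime → q ≠ 2 → a ≤ 2 → (a = 2 → q = 3 → b ≤ 1) →
      (InL.{u} (2 ^ a * q ^ b) ↔ InL.{u} (q ^ b) ∧ Finite (P (2 ^ a * q ^ b) q))) ∧
    (∀ p q a b : ℕ, p.Prime → q.Prime → p ≠ 2 → q ≠ 2 → p ≠ q →
      ((a ≤ 1 ∨ b ≤ 1 ∨ p ∣ q - 1 ∨ q ∣ p - 1) →
        (InL.{u} (p ^ a * q ^ b) ↔ InL.{u} (p ^ a) ∧ InL.{u} (q ^ b) ∧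
          Finite (P (p ^ a * q ^ b) p) ∧ Finite (P (p ^ a * q ^ b) q))) ∧
      (p ∣ q - 1 →
        (InL.{u} (p ^ a * q ^ b) ↔ InL.{u} (p ^ a) ∧ InL.{u} (q ^ b) ∧
          Finite (P (p ^ a * q ^ b) q) ∧ Finite (P2 (p ^ a * q ^ b) (p ^ a) p)))) ∧
    (InL.{u} 45 ↔ InL.{u} 9 ∧ Finite (P 45 3) ∧ Finite (P 45 5)) ∧
    (InL.{u} 63 ↔ InL.{u} 9 ∧ InL.{u} 7 ∧ Finite (P 63 7) ∧ Finite (P2 63 9 3)) ∧
    (InL.{u} 100 ↔ InL.{u} 25 ∧ Finite (P 100 5)) ∧
    (Group.IsSolvable (P 60 3) → Group.IsSolvable (P 60 5) →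
      (InL.{u} 60 ↔ Finite (P 60 3) ∧ Finite (P 60 5))) := by
  refine ⟨fun a m hm hm2 hm3 => sqP_small hm hm2 hm3 a,
    fun a m hm hS => ⟨fun G _ hG hE f1 f3 hnt => normal_even hm hS G hG hE f1 f3 hnt,
      fun hE => ⟨fun hL G _ hG h h3 S hSf => lf_level hm hS hE hL G hG h h3 S hSf,
        fun hs => crit hm hS hE hs⟩⟩,
    fun p a m hp hpm hodd hS hdiv => ⟨fun G _ hG f1 f2 hnt =>
      normal_odd hp hpm hodd hS hdiv G hG f1 f2 hnt, fun hs => crit_odd hp hpm hodd hS hdiv hs⟩,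
    fun a q b hq hq2 ha h => two_q hq hq2 ha h,
    fun p q a b hp hq hp2 hq2 hpq => ⟨fun h => odd_pq hp hq hp2 hq2 hpq h,
      fun h => odd_pq' hp hq hp2 h⟩, ?_, ?_, ?_, sixty⟩
  · have h := odd_pq.{u} (p := 3) (q := 5) (a := 2) (b := 1) Nat.prime_three Nat.prime_five
      (by norm_num) (by norm_num) (by norm_num) (Or.inr (Or.inl le_rfl))
    norm_num at h
    rw [h]
    refine ⟨fun h => ⟨h.1, h.2.2⟩, fun h => ⟨h.1, ?_, h.2⟩⟩
    exact (inL_iff x_LFD 5).2 (five_of_bq (m := 9) (by norm_num) h.2.2)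
  · have h := odd_pq'.{u} (p := 3) (q := 7) (a := 2) (b := 1) Nat.prime_three (by norm_num)
      (by norm_num) (by norm_num)
    norm_num at h
    exact h
  · have h := two_q.{u} (a := 2) (q := 5) (b := 2) Nat.prime_five (by norm_num) le_rfl
      (fun _ h => absurd h (by norm_num))
    norm_num at h
    exact h

end Pool.Agent.Results.MP_544bd1_al.PrimeOrderAllExponents
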