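import Mathlib
import Pool.Agent.V5helper75.SG.Fin

/-!
# Six generators decide local finiteness, without solubility

All earlier results on exponents with more than two prime divisors (`ThreeGenerators`,
`TwoGenerators`, `PrimeOrderAllExponents`, ...) assume that the groups with few generators are
*soluble*.  Here this is not assumed: if the prime powers greater than `5` dividing `n` are in `𝓛`,
then `n ∈ 𝓛` if and only if `B_{6,n}` is finite.  The only fact on finite simple groups which enters
(as a hypothesis) is that they are generated by two elements, a known theorem.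

Outline (library `Pool.Agent.V5helper75.SG`).  Let `FC c` be the class of the finite groups whose
nonabelian simple sections have order at most `c`, and let `G` have exponent `n` and finite
six-generator subgroups of order at most `N` in `FC (c + 1)`; induction on `c` and `n`.  For `c = 0` the
six-generator subgroups are soluble of bounded derived length, and the method of `ThreeGenerators`
gives a series with factors of prime power exponent (`SerBase`).

1. (`Rad`, `Comp`.)  Let `X` be finite, in `FC (c + 1)`, and `rad X` its largest normal subgroup in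
`FC c`.  The simple subgroups `V` of order `c + 1` of `X / rad X` which commute with their conjugates
`≠ V` (the components) commute with each other and have trivial centraliser.

2. (`Bad`, `Grp`.)  The elements `e` of `G` which lie in `rad ⟨e, h₁, h₂⟩` for all `h₁, h₂` form a normal
subgroup `R`, whose six-generator subgroups are in `FC c`; the quotient has trivial `R`.  The elements
which normalise all components of `X / rad X`, for all six-generator subgroups `X` containing them,
form a normal subgroup `K`; this can be detected on the groups `⟨x, h₁, h₂⟩` by the existence of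
subgroups `D` in the normal closure of `x` without quotients in `FC c` which commute with `x D x⁻¹`
modulo a subgroup in `FC c`.

3. (`Exp`.)  If `p` is a prime divisor of `c + 1`, then `x ^ (n / p)` is in `K`: otherwise let `x'` be the
`p`-part of `x` and `v` an element of order `p` of a component `V`; the `q`-th power of `v x'`,
`q = |⟨x'⟩|`, is the product of the conjugates of `v`, which lie in different components, and its order
is `p`.  So the exponent of `G / K` divides `n / p`.

4. (`Alive`, `Good`, `Prime`, `Res`.)  Let `R = 1` and `G = K`.  For `w ≠ 1` there is a sequence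
`w₀ = w, w₁, ...` of elements `≠ 1` such that `w_{i+1}` lies in a subgroup of the normal closure of `w_i`
without quotients in `FC c`.  Let `P` be a maximal normal subgroup which contains no `w_i`; it is prime:
if `[yuy⁻¹, g] ∈ P` for all `y`, then `u` or `g` is in `P`.  There are `t₁, t₂` and a subgroup `D ≰ P` of
`⟨t₁, t₂⟩` without quotients in `FC c`.  For `e ∈ G`, `z ∈ D` there are a component `V` of `⟨t₁, t₂, e⟩`
which avoids `P`, an element `z'` of `D` which acts on it like `e z e⁻¹`, and an element `u ∉ P` inducing
an element of `V`; for `g = e z e⁻¹ z'⁻¹` and all `y, h₁, h₂` the element `[yuy⁻¹, g]` of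
`⟨t₁, t₂, e, y, h₁, h₂⟩` acts trivially on all components, so it is in `R = 1`, and `g ∈ P`.  Hence `D P` is
normal, and `G / P` acts faithfully on the finite group `D P / P`.  So `G` is residually of bounded
order.
-/

set_option autoImplicit false

namespace Pool.Agent.Results.MP_544bd1_al.SixGenerators

universe u

/-- `n ∈ 𝓛`: every group satisfying `x ^ n = 1` is locally finite. -/
def InL (n : ℕ) : Prop := ∀ (G : Type u) [Group G], (∀ x : G, x ^ n = 1) →
  ∀ S : Set G, S.Finite → Finite (Subgroup.closure S)

/-- The free Burnside group `B_{m,n}`: the free group of rank `m` modulo the normal closure of all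
`n`-th powers. -/
abbrev B (m n : ℕ) : Type :=
  FreeGroup (Fin m) ⧸ Subgroup.normalClosure (Set.range fun w : FreeGroup (Fin m) => w ^ n)

/-- Every prime power greater than `5` dividing `n` is in `𝓛`. -/
def PrimePowersInL (n : ℕ) : Prop :=
  ∀ p k : ℕ, p.Prime → p ^ k ∣ n → 5 < p ^ k → InL.{u} (p ^ k)

/-- The nonabelian finite simple groups of exponent dividing `n` are generated by two elements.  This
is known for all finite simple groups (by their classification). -/
def SimpleTwoGenerated (n : ℕ) : Prop :=
  ∀ (S : Type) [Group S] [Finite S], IsSimpleGroup S → (∃ a b : S, a * b ≠ b * a) →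
    (∀ x : S, x ^ n = 1) → ∃ a b : S, Subgroup.closure {a, b} = ⊤

/-- The nonabelian finite simple sections of `X` (the homomorphic images of subgroups) are generated
by two elements.  This holds for all groups by the classification of the finite simple groups. -/
def SectionsTwoGenerated (X : Type u) [Group X] : Prop :=
  ∀ (S : Type) [Group S] [Finite S], IsSimpleGroup S → (∃ a b : S, a * b ≠ b * a) →
    (∃ (H : Subgroup X) (f : H →* S), Function.Surjective f) →
      ∃ a b : S, Subgroup.closure {a, b} = ⊤

/-- The subgroups of `G` generated by six elements are finite, of order at most `N`, and their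
nonabelian simple sections are generated by two elements. -/
def SmallSix (N : ℕ) (G : Type u) [Group G] : Prop :=
  ∀ a : Fin 6 → G, Finite (Subgroup.closure (Set.range a)) ∧
    Nat.card (Subgroup.closure (Set.range a)) ≤ N ∧
      SectionsTwoGenerated (Subgroup.closure (Set.range a))

/-- The factor `M / P` has an exponent dividing a prime power which divides `n`, or it is residually
of order at most `N`: each element `w` of `M` outside `P` is outside a normal subgroup `L ≥ P` of `M` of
finite index at most `N`. -/
def Layer (n N : ℕ) {G : Type} [Group G] (P M : Subgroup G) : Prop :=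
  (∃ p k : ℕ, p.Prime ∧ p ^ k ∣ n ∧ ∀ x ∈ M, x ^ p ^ k ∈ P) ∨
    ∀ w ∈ M, w ∉ P → ∃ L : Subgroup G, P ≤ L ∧ L ≤ M ∧ (∀ m ∈ M, ∀ x ∈ L, m * x * m⁻¹ ∈ L) ∧
      w ∉ L ∧ L.relIndex M ≠ 0 ∧ L.relIndex M ≤ N

/-- `G` has a series `1 = S 0 ≤ S 1 ≤ … ≤ S l = G` of characteristic subgroups whose factors are as in
`Layer`. -/
def HasSeries (n N l : ℕ) (G : Type) [Group G] : Prop :=
  ∃ S : ℕ → Subgroup G, S 0 = ⊥ ∧ S l = ⊤ ∧
    ∀ i, (S i).Characteristic ∧ S i ≤ S (i + 1) ∧ Layer n N (S i) (S (i + 1))

theorem series_of {n N : ℕ} (hn : 1 ≤ n) : ∃ l : ℕ, ∀ (G : Type) [Group G],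
    (∀ x : G, x ^ n = 1) → SmallSix N G → HasSeries n (N ^ N) l G := by
  obtain ⟨l, hl⟩ := Pool.Agent.V5helper75.SG.structure_thm n hn N
  refine ⟨l, fun G _ hexp hG => ?_⟩
  obtain ⟨S, h0, htop, hS⟩ := hl G hexp hG
  exact ⟨S, h0, htop l le_rfl, hS⟩

theorem small_of {n : ℕ} (hS : SimpleTwoGenerated n) (hf : Finite (B 6 n)) {G : Type} [Group G]
    (hG : ∀ x : G, x ^ n = 1) : SmallSix (Nat.card (B 6 n)) G := by
  intro a
  obtain ⟨f, hfr⟩ := Pool.Agent.V5helper75.SG.bu_onto (m := 6) hG a
  rw [← hfr]
  refine ⟨Finite.of_surjective _ f.rangeRestrict_surjective,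
    Nat.card_le_card_of_surjective _ f.rangeRestrict_surjective, ?_⟩
  intro S _ _ hsimp hab hsec
  obtain ⟨H, φ, hφ⟩ := hsec
  refine hS S hsimp hab (fun y => ?_)
  obtain ⟨x, rfl⟩ := hφ y
  have h1 : x ^ n = 1 := Subtype.ext (Subtype.ext (hG x.1.1))
  rw [← map_pow, h1, map_one]

/-- (1) Let `n ≥ 1`, let the prime powers greater than `5` dividing `n` be in `𝓛`, and let `G` be a group
satisfying `x ^ n = 1` whose six-generator subgroups are finite of bounded order (with two-generated
nonabelian simple sections).  Then `G` is locally finite.  (2) If the prime powers greater than `5`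
dividing `n` are in `𝓛`, then `n ∈ 𝓛` if and only if `B_{6,n}` is finite (provided that the nonabelian
finite simple groups of exponent dividing `n` are two-generated).  (3) In particular `30 ∈ 𝓛` if and
only if `B_{6,30}` is finite, and `60 ∈ 𝓛` if and only if `B_{6,60}` is finite.  (4) For all `n ≥ 1`, whether
the prime powers are in `𝓛` or not: if the six-generator subgroups of a group `G` satisfying `x ^ n = 1`
have order at most `N` (with two-generated nonabelian simple sections), then `G` has a series of
characteristic subgroups, of a length depending on `n` and `N` only, each factor of which has prime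
power exponent or is residually of order at most `N ^ N`.  (5) If `B_{6,n}` is finite, all groups
satisfying `x ^ n = 1` have such a series, of a length which depends on `n` only. -/
theorem result :
    (∀ n : ℕ, 1 ≤ n → PrimePowersInL.{u} n → ∀ (N : ℕ) (G : Type u) [Group G],
      (∀ x : G, x ^ n = 1) → SmallSix N G →
        ∀ S : Set G, S.Finite → Finite (Subgroup.closure S)) ∧
    (∀ n : ℕ, 1 ≤ n → PrimePowersInL.{u} n → SimpleTwoGenerated n →
      (InL.{u} n ↔ Finite (B 6 n))) ∧
    (SimpleTwoGenerated 60 →
      (InL.{u} 30 ↔ Finite (B 6 30)) ∧ (InL.{u} 60 ↔ Finite (B 6 60))) ∧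
    (∀ n : ℕ, 1 ≤ n → ∀ N : ℕ, ∃ l : ℕ, ∀ (G : Type) [Group G], (∀ x : G, x ^ n = 1) →
      SmallSix N G → HasSeries n (N ^ N) l G) ∧
    ∀ n : ℕ, 1 ≤ n → SimpleTwoGenerated n → Finite (B 6 n) → ∃ N l : ℕ,
      ∀ (G : Type) [Group G], (∀ x : G, x ^ n = 1) → HasSeries n N l G := by
  have h2 : ∀ n : ℕ, 1 ≤ n → PrimePowersInL.{u} n → SimpleTwoGenerated n →
      (InL.{u} n ↔ Finite (B 6 n)) := fun n hn hq hS =>
    Pool.Agent.V5helper75.SG.inL_six hn hS hq
  refine ⟨fun n hn hq N G _ hexp hG S hSf =>
    Pool.Agent.V5helper75.SG.group_level hn hq G hexp hG S hSf, h2, ?_,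
    fun n hn N => series_of hn, ?_⟩
  · intro hS
    have hpp : ∀ p k : ℕ, p.Prime → p ^ k ∣ 60 → ¬ 5 < p ^ k := by
      intro p k hp hk h5
      have hk0 : k ≠ 0 := by
        rintro rfl
        norm_num at h5
      have hp60 : p ∣ 2 ^ 2 * 3 * 5 := (dvd_pow_self p hk0).trans hk
      have hcase : p = 2 ∨ p = 3 ∨ p = 5 := by
        rcases (hp.dvd_mul).1 hp60 with h | h
        · rcases (hp.dvd_mul).1 h with h | h
          · exact Or.inl ((Nat.prime_dvd_prime_iff_eq hp Nat.prime_two).1 (hp.dvd_of_dvd_pow h))
          · exact Or.inr (Or.inl ((Nat.prime_dvd_prime_iff_eq hp Nat.prime_three).1 h))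
        · exact Or.inr (Or.inr ((Nat.prime_dvd_prime_iff_eq hp Nat.prime_five).1 h))
      have hbig : ∀ j : ℕ, j ≤ k → p ^ j ∣ 60 := fun j hj => (pow_dvd_pow p hj).trans hk
      rcases hcase with rfl | rfl | rfl
      · have : k < 3 := by
          by_contra h
          exact absurd (hbig 3 (by omega)) (by norm_num)
        interval_cases k <;> omega
      · have : k < 2 := by
          by_contra h
          exact absurd (hbig 2 (by omega)) (by norm_num)
        interval_cases k <;> omega
      · have : k < 2 := by
          by_contra h
          exact absurd (hbig 2 (by omega)) (by norm_num)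
        interval_cases k <;> omega
    have h60 : PrimePowersInL.{u} 60 := fun p k hp hk h5 => absurd h5 (hpp p k hp hk)
    have h30 : PrimePowersInL.{u} 30 := fun p k hp hk h5 =>
      absurd h5 (hpp p k hp (hk.trans (by norm_num)))
    have hS30 : SimpleTwoGenerated 30 := fun S _ _ h1 h2 h3 => hS S h1 h2 (fun x => by
      rw [show 60 = 30 * 2 by norm_num, pow_mul, h3, one_pow])
    exact ⟨h2 30 (by norm_num) h30 hS30, h2 60 (by norm_num) h60 hS⟩
  · intro n hn hS hf
    obtain ⟨l, hl⟩ := series_of (N := Nat.card (B 6 n)) hn
    exact ⟨_, l, fun G _ hG => hl G hG (small_of hS hf hG)⟩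

end Pool.Agent.Results.MP_544bd1_al.SixGenerators
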